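import Pool.Agent.Helper41.LD7.Defs

/-!
# Project PD (prescribed densities for the powers): definitions
-/

set_option autoImplicit false

namespace Pool.Agent.Helper41.PD

open Set MeasureTheory
open Pool.Agent.Helper41.LD (av var haar)
open Pool.Agent.Helper41.LD4 (A M W Pot NB NBg)
open Pool.Agent.Helper41.LD5 (fp pwf)
open Pool.Agent.Helper41.LD6 (hr vr lv Qs vq lev Lv NR6)
open Pool.Agent.Helper41.LD7

/-- the potential with the target `g` -/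
noncomputable def PotT (G : ℕ → ℝ → ℝ) (n r : ℕ) (lam g a ℓ : ℝ) : ℝ :=
  Real.cosh (lam * (M G a ℓ - g)) * (1 + 4 * lam ^ 2 * W G n r a ℓ)

/-- a good window of the stage, for the targets `tg p n` (`n`: absolute time) -/
def GoodT (F : Pm) (tg : ℕ × (Fin (F.d + 1) → ℕ) → ℕ → ℝ) (K : ℕ) (a₀ ℓst a ℓ : ℝ) : Prop :=
  NBg (F.U K a₀ ℓst) (F.T K a₀ ℓst ℓ + F.d) (F.R * F.E K) (2 ^ K) a ℓ ∧
  ∑ p ∈ F.Is K, PotT (F.G K a₀ ℓst p) (F.T K a₀ ℓst ℓ) (F.R * F.E K) (F.lam K p)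
    (tg p (F.n₀ K a₀ ℓst + F.T K a₀ ℓst ℓ) - tg p (F.n₀ K a₀ ℓst)) a ℓ ≤ 16 ^ F.E K

/-- the targets move slowly from the start of the stage on -/
def Slow (F : Pm) (tg : ℕ × (Fin (F.d + 1) → ℕ) → ℕ → ℝ) (K : ℕ) (a₀ ℓst : ℝ) : Prop :=
  ∀ p ∈ F.Is K, ∀ n, F.n₀ K a₀ ℓst ≤ n → |tg p (n + 1) - tg p n| ≤ om F.Q K (lev p.2) * vq p.2 / (1000 * (F.X * (K : ℝ) ^ 3))

/-- the data: single terms of `A₀ x ^ n + c n` -/
def F0 (X : ℕ) (A₀ x₁ x₂ : ℝ) (c : ℝ → ℝ) : Pm := ⟨0, X, 1, 1, A₀, x₁, x₂, c⟩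

/-- the targets of the densities `1 + u m` for the times `m ≥ N₁` -/
noncomputable def tgD (u : ℕ → ℝ → ℝ) (N₁ : ℕ) (p : ℕ × (Fin (0 + 1) → ℕ)) (n : ℕ) : ℝ :=
  ∑ m ∈ Finset.range n, if N₁ ≤ m then ∫ t in (0 : ℝ)..1, u m t * hr (p.2 0) t else 0

end Pool.Agent.Helper41.PD
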