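import Pool.Agent.Helper41.PD.Stage
import Pool.Agent.Helper78.PD.Stage
import Pool.Agent.Helper59.PD.Cls
import Pool.Agent.Helper65.PD.AsmT
import Pool.Agent.Helper65.PD.Slow
import Pool.Agent.Helper44.PD.Low
import Pool.Agent.Helper41.LD7.Main

/-!
# Project PD (prescribed densities for the powers): the main theorem
-/

set_option autoImplicit false

namespace Pool.Agent.Helper41.PD

open Set MeasureTheory Filter Topology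
open Pool.Agent.Helper41.LD (av var haar Kk Kk_mono Kk_succ Kk_ge Kk_tendsto)
open Pool.Agent.Helper41.LD2 (dimH_le_one)
open Pool.Agent.Helper41.LD3 (ll ll_pos ll_succ ll_anti ll_tendsto)
open Pool.Agent.Helper41.LD4 (kp kp_zero kp_strict Kk_phase exists_phase phase_len ll_phase)
open Pool.Agent.Helper41.LD5 (fp pwf nuP nuR nuP_eq len5 num5 len5_succ len5_zero len5_div child_in)
open Pool.Agent.Helper44.LD5 (nuP_mono nuP_succ nuP_ge)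
open Pool.Agent.Helper41.LD5 (ev_len)
open Pool.Agent.Helper89.LD5 (dim_exc)
open Pool.Agent.Helper41.LD6 (hr vr lv Qs vq lev pro6)
open Pool.Agent.Helper76.LD7 (num_K num_Z num_le num_R num_pow)
open Pool.Agent.Helper64.LD7 (T_phase)
open Pool.Agent.Helper34.LD7 (nr_cover)
open Pool.Agent.Helper64.LD6 (ev_mass6)
open Pool.Agent.Helper49.LD6 (mass_bound6)
open Pool.Agent.Helper41.LD7 (Pm cF sp num_count ll_succ1)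
open Pool.Agent.Helper78.PD (stage_stepT)
open Pool.Agent.Helper59.PD (clsT)
open Pool.Agent.Helper65.PD (asmT slow_all)
open Pool.Agent.Helper44.PD (n₀_ge)

/-! ## Single terms -/

theorem mem_Qs0 {K q : ℕ} (hq1 : 1 ≤ q) (hq2 : q < 2 ^ K) : (fun _ => q : Fin (0 + 1) → ℕ) ∈ Qs 0 K := by
  unfold Qs
  rw [Finset.mem_filter, Fintype.mem_piFinset]
  exact ⟨fun _ => Finset.mem_range.2 hq2, by show q ≠ 0; omega⟩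

theorem sp_one {q : ℕ} (hq1 : 1 ≤ q) : sp (fun _ => q : Fin (0 + 1) → ℕ) = 1 := by
  unfold sp
  have h : ∀ i ∈ (Finset.univ : Finset (Fin (0 + 1))), (fun _ => q : Fin (0 + 1) → ℕ) i ≠ 0 := fun _ _ => by
    show q ≠ 0
    omega
  rw [Finset.filter_true_of_mem h]
  rfl

theorem tgD_sub (u : ℕ → ℝ → ℝ) {N₁ n₀ : ℕ} (h : N₁ ≤ n₀) (p : ℕ × (Fin (0 + 1) → ℕ)) (T : ℕ) :
    tgD u N₁ p (n₀ + T) - tgD u N₁ p n₀ = ∑ j ∈ Finset.range T, ∫ t in (0 : ℝ)..1, u (n₀ + j) t * hr (p.2 0) t := by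
  unfold tgD
  rw [Finset.sum_range_add, add_sub_cancel_left]
  refine Finset.sum_congr rfl fun j _ => ?_
  rw [if_pos (h.trans (Nat.le_add_right _ _))]

theorem conv_sum {X : ℕ} {A₀ x₁ x₂ : ℝ} {c : ℝ → ℝ} {K : ℕ} {a₀ ℓst ℓ x : ℝ} {u : ℕ → ℝ → ℝ} {N₁ q : ℕ} (hq1 : 1 ≤ q)
    (hN : N₁ ≤ (F0 X A₀ x₁ x₂ c).n₀ K a₀ ℓst)
    (h : |∑ j ∈ Finset.range ((F0 X A₀ x₁ x₂ c).T K a₀ ℓst ℓ) with ((F0 X A₀ x₁ x₂ c).n₀ K a₀ ℓst + j) % (F0 X A₀ x₁ x₂ c).Q = 0,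
        ∏ i : Fin ((F0 X A₀ x₁ x₂ c).d + 1), hr q ((F0 X A₀ x₁ x₂ c).U K a₀ ℓst (j + i) x) -
      (tgD u N₁ (0, fun _ => q) ((F0 X A₀ x₁ x₂ c).n₀ K a₀ ℓst + (F0 X A₀ x₁ x₂ c).T K a₀ ℓst ℓ) - tgD u N₁ (0, fun _ => q) ((F0 X A₀ x₁ x₂ c).n₀ K a₀ ℓst))| ≤
      131072 * (F0 X A₀ x₁ x₂ c).X * ((F0 X A₀ x₁ x₂ c).d + 4) * (F0 X A₀ x₁ x₂ c).Q * (K : ℝ) ^ 4 *
        (4 * ((F0 X A₀ x₁ x₂ c).d + 1) * (K : ℝ)) ^ sp (fun _ => q : Fin ((F0 X A₀ x₁ x₂ c).d + 1) → ℕ)) :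
    |∑ j ∈ Finset.range ((F0 X A₀ x₁ x₂ c).T K a₀ ℓst ℓ),
      (hr q (pwf A₀ c 1 ((F0 X A₀ x₁ x₂ c).n₀ K a₀ ℓst + j) x) - ∫ t in (0 : ℝ)..1, u ((F0 X A₀ x₁ x₂ c).n₀ K a₀ ℓst + j) t * hr q t)| ≤
        2 ^ 21 * X * (K : ℝ) ^ 5 := by
  rw [tgD_sub u hN] at h
  have e1 : ∑ j ∈ Finset.range ((F0 X A₀ x₁ x₂ c).T K a₀ ℓst ℓ) with ((F0 X A₀ x₁ x₂ c).n₀ K a₀ ℓst + j) % (F0 X A₀ x₁ x₂ c).Q = 0,
        ∏ i : Fin ((F0 X A₀ x₁ x₂ c).d + 1), hr q ((F0 X A₀ x₁ x₂ c).U K a₀ ℓst (j + i) x) =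
      ∑ j ∈ Finset.range ((F0 X A₀ x₁ x₂ c).T K a₀ ℓst ℓ), hr q (pwf A₀ c 1 ((F0 X A₀ x₁ x₂ c).n₀ K a₀ ℓst + j) x) := by
    have hfil : ∀ j ∈ Finset.range ((F0 X A₀ x₁ x₂ c).T K a₀ ℓst ℓ), ((F0 X A₀ x₁ x₂ c).n₀ K a₀ ℓst + j) % (F0 X A₀ x₁ x₂ c).Q = 0 :=
      fun j _ => Nat.mod_one _
    rw [Finset.filter_true_of_mem hfil]
    refine Finset.sum_congr rfl fun j _ => ?_
    show ∏ i : Fin (0 + 1), hr q ((F0 X A₀ x₁ x₂ c).U K a₀ ℓst (j + i) x) = _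
    rw [Fin.prod_univ_one]
    rfl
  rw [e1, ← Finset.sum_sub_distrib] at h
  refine h.trans (le_of_eq ?_)
  have e2 : sp (fun _ => q : Fin ((F0 X A₀ x₁ x₂ c).d + 1) → ℕ) = 1 := sp_one hq1
  rw [e2]
  show 131072 * (X : ℝ) * (((0 : ℕ) : ℝ) + 4) * ((1 : ℕ) : ℝ) * (K : ℝ) ^ 4 * (4 * (((0 : ℕ) : ℝ) + 1) * (K : ℝ)) ^ 1 = _
  push_cast
  ring

theorem log_phase {σ k : ℕ} (h1 : kp σ ≤ k) (h2 : k < kp (σ + 1)) : Nat.log 2 (k + 1) = σ := by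
  have h3 := Kk_phase 0 h1 h2
  unfold Kk at h3
  omega

/-! ## The tree -/

section

variable {X : ℕ} {A₀ x₁ x₂ : ℝ} {c : ℝ → ℝ} {tg : ℕ × (Fin (0 + 1) → ℕ) → ℕ → ℝ} {E : ℕ → Finset ℝ} {K₀ : ℕ} {ℓ₀ : ℝ}

/-- a good window of level `k` -/
def GoodM (X : ℕ) (A₀ x₁ x₂ : ℝ) (c : ℝ → ℝ) (tg : ℕ × (Fin (0 + 1) → ℕ) → ℕ → ℝ) (K₀ : ℕ) (ℓ₀ : ℝ) (k : ℕ) (a : ℝ) : Prop :=
  ∀ σ, kp σ < k → k ≤ kp (σ + 1) → ∃ a₀, (F0 X A₀ x₁ x₂ c).St (K₀ + σ) a₀ (ll 1 K₀ ℓ₀ (kp σ)) ∧ a₀ ≤ a ∧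
    a + ll 1 K₀ ℓ₀ k ≤ a₀ + ll 1 K₀ ℓ₀ (kp σ) ∧ GoodT (F0 X A₀ x₁ x₂ c) tg (K₀ + σ) a₀ (ll 1 K₀ ℓ₀ (kp σ)) a (ll 1 K₀ ℓ₀ k)

/-- the radius of the resonances -/
noncomputable def rad (K₀ σ : ℕ) : ℝ := (1 / 2) ^ (200 * (0 + 2) * ((0 + 4) * (K₀ + σ)))

/-- a window inside a start window that meets a resonance -/
def Dead (E : ℕ → Finset ℝ) (K₀ : ℕ) (ℓ₀ : ℝ) (k : ℕ) (a : ℝ) : Prop :=
  ∃ (σ : ℕ) (a' : ℝ), kp σ ≤ k ∧ a' ≤ a ∧ a + ll 1 K₀ ℓ₀ k ≤ a' + ll 1 K₀ ℓ₀ (kp σ) ∧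
    ∃ y ∈ E σ, ∃ z ∈ Icc a' (a' + ll 1 K₀ ℓ₀ (kp σ)), z ∈ Icc (y - rad K₀ σ) (y + rad K₀ σ)

/-- the nodes of the tree -/
def Nd (X : ℕ) (A₀ x₁ x₂ : ℝ) (c : ℝ → ℝ) (tg : ℕ × (Fin (0 + 1) → ℕ) → ℕ → ℝ) (E : ℕ → Finset ℝ) (K₀ : ℕ) (ℓ₀ : ℝ) (k : ℕ) (a : ℝ) : Prop :=
  (k = 0 ∧ a = x₁) ∨ (1 ≤ k ∧ x₁ ≤ a ∧ a + ll 1 K₀ ℓ₀ (k - 1) ≤ x₂ ∧ (Dead E K₀ ℓ₀ (k - 1) a ∨ GoodM X A₀ x₁ x₂ c tg K₀ ℓ₀ (k - 1) a))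

/-- the requirements -/
structure Rq (X : ℕ) (A₀ x₁ x₂ : ℝ) (c : ℝ → ℝ) (tg : ℕ × (Fin (0 + 1) → ℕ) → ℕ → ℝ) (E : ℕ → Finset ℝ) (K₀ : ℕ) (ℓ₀ : ℝ) : Prop where
  ok : (F0 X A₀ x₁ x₂ c).Ok
  pos : 0 < ℓ₀
  big : ∀ σ, (F0 X A₀ x₁ x₂ c).Big (K₀ + σ)
  len : ∀ σ, ll 1 K₀ ℓ₀ (kp σ) * 2 ^ ((K₀ + σ) ^ 4) ≤ 1 ∧ 1 ≤ ll 1 K₀ ℓ₀ (kp σ) * 2 ^ (2 ^ (2 * (K₀ + σ)))
  cov : ∀ σ, ∀ x ∈ Icc x₁ x₂, (∀ y ∈ E σ, x ∉ Icc (y - rad K₀ σ) (y + rad K₀ σ)) →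
    (F0 X A₀ x₁ x₂ c).NR (K₀ + σ) x
  slow : ∀ (σ : ℕ) (a₀ : ℝ), (F0 X A₀ x₁ x₂ c).St (K₀ + σ) a₀ (ll 1 K₀ ℓ₀ (kp σ)) → Slow (F0 X A₀ x₁ x₂ c) tg (K₀ + σ) a₀ (ll 1 K₀ ℓ₀ (kp σ))

/-- a good window that is not dead has a start window -/
theorem good_at (R : Rq X A₀ x₁ x₂ c tg E K₀ ℓ₀) {k : ℕ} {a : ℝ} (ha1 : x₁ ≤ a) (ha2 : a + ll 1 K₀ ℓ₀ k ≤ x₂) (hd : ¬ Dead E K₀ ℓ₀ k a)
    (hg : GoodM X A₀ x₁ x₂ c tg K₀ ℓ₀ k a) {σ : ℕ} (h1 : kp σ ≤ k) (h2 : k ≤ kp (σ + 1)) :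
    ∃ a₀, (F0 X A₀ x₁ x₂ c).St (K₀ + σ) a₀ (ll 1 K₀ ℓ₀ (kp σ)) ∧ a₀ ≤ a ∧
      a + ll 1 K₀ ℓ₀ k ≤ a₀ + ll 1 K₀ ℓ₀ (kp σ) ∧ GoodT (F0 X A₀ x₁ x₂ c) tg (K₀ + σ) a₀ (ll 1 K₀ ℓ₀ (kp σ)) a (ll 1 K₀ ℓ₀ k) := by
  rcases eq_or_lt_of_le h1 with h3 | h3
  · subst h3
    have hp := ll_pos (κ := 1) R.pos K₀ (kp σ)
    have hS : (F0 X A₀ x₁ x₂ c).St (K₀ + σ) a (ll 1 K₀ ℓ₀ (kp σ)) := by
      refine ⟨ha1, ha2, hp, (R.len σ).1, (R.len σ).2, fun x hx => ?_⟩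
      refine R.cov σ x ⟨ha1.trans hx.1, hx.2.trans ha2⟩ fun y hy hxy => hd ?_
      exact ⟨σ, a, le_rfl, le_rfl, le_rfl, y, hy, x, hx, hxy⟩
    exact ⟨a, hS, le_rfl, le_rfl, stage_startT (R.ok) (R.big σ) hS⟩
  · exact hg σ h3 h2

/-- the number of the steps in a phase -/
theorem T_le (R : Rq X A₀ x₁ x₂ c tg E K₀ ℓ₀) {σ k : ℕ} (h1 : kp σ ≤ k) (h2 : k ≤ kp (σ + 1)) {a₀ : ℝ}
    (hS : (F0 X A₀ x₁ x₂ c).St (K₀ + σ) a₀ (ll 1 K₀ ℓ₀ (kp σ))) :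
    (F0 X A₀ x₁ x₂ c).T (K₀ + σ) a₀ (ll 1 K₀ ℓ₀ (kp σ)) (ll 1 K₀ ℓ₀ k) ≤ 2 ^ (K₀ + σ) * (X * (K₀ + σ) ^ 3) :=
  T_phase (R.ok) hS R.pos K₀ rfl rfl h1 h2

theorem num_count {F : Pm} {K n : ℕ} (hF : F.Ok) (hK : F.Big K) (hn : n ≤ 2 ^ K * (F.X * K ^ 3)) : n + F.R * F.E K ≤ 2 ^ (2 * K) := by
  have h1 := num_K hK
  obtain ⟨h2, h3, h4⟩ := num_Z hK
  obtain ⟨h5, -⟩ := num_le hF
  have h6 := (num_R hF hK).1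
  have h7 := (num_pow hF hK).1
  have hKK : K ^ 4 * 2 ≤ 2 ^ K := by
    refine le_trans ?_ h7
    calc K ^ 4 * 2 ≤ K ^ 4 * K := Nat.mul_le_mul_left _ (by omega)
      _ = K ^ 5 := by ring
      _ ≤ K ^ 20 := Nat.pow_le_pow_right (by omega) (by norm_num)
  have hX : F.X * K ^ 3 ≤ K ^ 4 := by
    calc F.X * K ^ 3 ≤ K * K ^ 3 := Nat.mul_le_mul_right _ (by omega)
      _ = K ^ 4 := by ring
  have hR : F.R * F.E K ≤ K ^ 3 := by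
    rcases Nat.eq_zero_or_pos (F.R * F.E K) with h0 | h0
    · rw [h0]; exact Nat.zero_le _
    · exact (Nat.le_self_pow two_ne_zero _).trans h6
  have hR2 : F.R * F.E K ≤ K ^ 4 := hR.trans (Nat.pow_le_pow_right (by omega) (by norm_num))
  have h2K : 1 ≤ 2 ^ K := Nat.one_le_two_pow
  calc n + F.R * F.E K ≤ 2 ^ K * K ^ 4 + 2 ^ K * K ^ 4 :=
        Nat.add_le_add (hn.trans (Nat.mul_le_mul_left _ hX)) (hR2.trans (Nat.le_mul_of_pos_left _ h2K))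
    _ = 2 ^ K * (K ^ 4 * 2) := by ring
    _ ≤ 2 ^ K * 2 ^ K := Nat.mul_le_mul_left _ hKK
    _ = 2 ^ (2 * K) := by rw [two_mul, pow_add]

theorem ll_succ1 (K₀ : ℕ) (ℓ₀ : ℝ) (k : ℕ) : ll 1 K₀ ℓ₀ (k + 1) = ll 1 K₀ ℓ₀ k / ((2 ^ (Kk K₀ k ^ 3) : ℕ) : ℝ) := by
  rw [ll_succ]
  push_cast
  rfl

/-- one step of the tree -/
theorem nd_step (R : Rq X A₀ x₁ x₂ c tg E K₀ ℓ₀) (k : ℕ) (a : ℝ) (ha1 : x₁ ≤ a) (ha2 : a + ll 1 K₀ ℓ₀ k ≤ x₂)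
    (h : Dead E K₀ ℓ₀ k a ∨ GoodM X A₀ x₁ x₂ c tg K₀ ℓ₀ k a) :
    pro6 (fun _ => 0 + 4) K₀ (k + 1) * ((2 ^ (Kk K₀ k ^ 3) : ℕ) : ℝ) ≤
      (by classical exact (((Finset.range (2 ^ (Kk K₀ k ^ 3))).filter fun b : ℕ =>
        x₁ ≤ a + b * ll 1 K₀ ℓ₀ (k + 1) ∧ a + b * ll 1 K₀ ℓ₀ (k + 1) + ll 1 K₀ ℓ₀ (k + 1) ≤ x₂ ∧
        (Dead E K₀ ℓ₀ (k + 1) (a + b * ll 1 K₀ ℓ₀ (k + 1)) ∨ GoodM X A₀ x₁ x₂ c tg K₀ ℓ₀ (k + 1) (a + b * ll 1 K₀ ℓ₀ (k + 1)))).card : ℝ)) := by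
  classical
  have hp := ll_pos (κ := 1) R.pos K₀ k
  have hsucc := ll_succ1 K₀ ℓ₀ k
  have hin : ∀ b : ℕ, b < 2 ^ (Kk K₀ k ^ 3) → a ≤ a + b * ll 1 K₀ ℓ₀ (k + 1) ∧
      a + b * ll 1 K₀ ℓ₀ (k + 1) + ll 1 K₀ ℓ₀ (k + 1) ≤ a + ll 1 K₀ ℓ₀ k := by
    intro b hb
    rw [hsucc]
    exact child_in hp hb
  have hpro : pro6 (fun _ => 0 + 4) K₀ (k + 1) ≤ 1 := by
    unfold pro6
    rw [if_neg (Nat.succ_ne_zero k)]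
    exact pow_le_one₀ (by norm_num) (by norm_num)
  by_cases hd : Dead E K₀ ℓ₀ k a
  · -- all children are dead
    have h1 : ((Finset.range (2 ^ (Kk K₀ k ^ 3))).filter fun b : ℕ =>
        x₁ ≤ a + b * ll 1 K₀ ℓ₀ (k + 1) ∧ a + b * ll 1 K₀ ℓ₀ (k + 1) + ll 1 K₀ ℓ₀ (k + 1) ≤ x₂ ∧
        (Dead E K₀ ℓ₀ (k + 1) (a + b * ll 1 K₀ ℓ₀ (k + 1)) ∨ GoodM X A₀ x₁ x₂ c tg K₀ ℓ₀ (k + 1) (a + b * ll 1 K₀ ℓ₀ (k + 1)))) =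
        Finset.range (2 ^ (Kk K₀ k ^ 3)) := by
      rw [Finset.filter_eq_self]
      intro b hb
      obtain ⟨h2, h3⟩ := hin b (Finset.mem_range.1 hb)
      refine ⟨ha1.trans h2, h3.trans ha2, Or.inl ?_⟩
      obtain ⟨σ, a', e1, e2, e3, e4⟩ := hd
      exact ⟨σ, a', by omega, e2.trans h2, h3.trans e3, e4⟩
    have h2 : pro6 (fun _ => 0 + 4) K₀ (k + 1) * ((2 ^ (Kk K₀ k ^ 3) : ℕ) : ℝ) ≤ ((2 ^ (Kk K₀ k ^ 3) : ℕ) : ℝ) :=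
      mul_le_of_le_one_left (Nat.cast_nonneg _) hpro
    refine h2.trans (le_of_eq ?_)
    have h3 := congrArg Finset.card h1
    rw [Finset.card_range] at h3
    exact_mod_cast h3.symm
  · have hg : GoodM X A₀ x₁ x₂ c tg K₀ ℓ₀ k a := h.resolve_left hd
    obtain ⟨σ, hσ1, hσ2⟩ := exists_phase k
    obtain ⟨a₀, hS, h3, h4, h5⟩ := good_at R ha1 ha2 hd hg hσ1 hσ2.le
    have hKk := Kk_phase K₀ hσ1 hσ2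
    have hT := T_le R (hσ1.trans (Nat.le_succ k)) (Nat.succ_le_of_lt hσ2) hS
    have hdiv : ll 1 K₀ ℓ₀ (k + 1) = ll 1 K₀ ℓ₀ k / 2 ^ ((K₀ + σ) ^ 3) := by
      rw [hsucc, hKk]
      push_cast
      rfl
    rw [hdiv] at hT
    have h6 := stage_stepT (R.ok) (R.big σ) hS (R.slow σ a₀ hS) hp h3 h4 (num_count (R.ok) (R.big σ) hT) h5
    have hpe : pro6 (fun _ => 0 + 4) K₀ (k + 1) = (1 / 2) ^ (3 * (F0 X A₀ x₁ x₂ c).E (K₀ + σ)) := by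
      unfold pro6
      rw [if_neg (Nat.succ_ne_zero k), Nat.add_sub_cancel, hKk, log_phase hσ1 hσ2]
      rfl
    rw [hpe]
    rw [hKk] at hin hsucc ⊢
    refine h6.trans ?_
    have h7 : ((Finset.range (2 ^ ((K₀ + σ) ^ 3))).filter fun b : ℕ =>
        GoodT (F0 X A₀ x₁ x₂ c) tg (K₀ + σ) a₀ (ll 1 K₀ ℓ₀ (kp σ)) (a + b * (ll 1 K₀ ℓ₀ k / (2 ^ ((K₀ + σ) ^ 3) : ℕ)))
          (ll 1 K₀ ℓ₀ k / (2 ^ ((K₀ + σ) ^ 3) : ℕ))) ⊆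
        ((Finset.range (2 ^ ((K₀ + σ) ^ 3))).filter fun b : ℕ =>
          x₁ ≤ a + b * ll 1 K₀ ℓ₀ (k + 1) ∧ a + b * ll 1 K₀ ℓ₀ (k + 1) + ll 1 K₀ ℓ₀ (k + 1) ≤ x₂ ∧
          (Dead E K₀ ℓ₀ (k + 1) (a + b * ll 1 K₀ ℓ₀ (k + 1)) ∨ GoodM X A₀ x₁ x₂ c tg K₀ ℓ₀ (k + 1) (a + b * ll 1 K₀ ℓ₀ (k + 1)))) := by
      intro b hb
      rw [Finset.mem_filter] at hb ⊢
      obtain ⟨h8, h9⟩ := hin b (Finset.mem_range.1 hb.1)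
      refine ⟨hb.1, ha1.trans h8, h9.trans ha2, Or.inr fun σ' e1 e2 => ?_⟩
      have e3 : σ' = σ := by
        rcases lt_trichotomy σ' σ with e | e | e
        · have := kp_strict.monotone (show σ' + 1 ≤ σ by omega)
          omega
        · exact e
        · have := kp_strict.monotone (show σ + 1 ≤ σ' by omega)
          omega
      subst e3
      refine ⟨a₀, hS, h3.trans h8, h9.trans h4, ?_⟩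
      rw [hsucc]
      exact hb.2
    have h8 := Finset.card_le_card h7
    convert (Nat.cast_le (α := ℝ)).2 h8 using 2

/-! ## The sums over the phases -/

/-- `x` is in good windows of all levels that are not dead -/
def Pt (X : ℕ) (A₀ x₁ x₂ : ℝ) (c : ℝ → ℝ) (tg : ℕ × (Fin (0 + 1) → ℕ) → ℕ → ℝ) (E : ℕ → Finset ℝ) (K₀ : ℕ) (ℓ₀ x : ℝ) : Prop :=
  ∀ k, ∃ a, x₁ ≤ a ∧ a + ll 1 K₀ ℓ₀ k ≤ x₂ ∧ ¬ Dead E K₀ ℓ₀ k a ∧ GoodM X A₀ x₁ x₂ c tg K₀ ℓ₀ k a ∧ x ∈ Icc a (a + ll 1 K₀ ℓ₀ k)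

/-- the discrepancy over one phase -/
theorem sum_box (R : Rq X A₀ x₁ x₂ c tg E K₀ ℓ₀) {x : ℝ} (hx : Pt X A₀ x₁ x₂ c tg E K₀ ℓ₀ x) {u : ℕ → ℝ → ℝ} {N₁ : ℕ} (htg : tg = tgD u N₁)
    (hum : ∀ n, Measurable (u n)) (hu1 : ∀ n t, |u n t| ≤ 1) (hu0 : ∀ n, ∫ t in (0 : ℝ)..1, u n t = 0)
    {σ : ℕ} (hN₁ : ∀ a₀ : ℝ, (F0 X A₀ x₁ x₂ c).St (K₀ + σ) a₀ (ll 1 K₀ ℓ₀ (kp σ)) → N₁ ≤ (F0 X A₀ x₁ x₂ c).n₀ (K₀ + σ) a₀ (ll 1 K₀ ℓ₀ (kp σ)))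
    {k : ℕ} (h1 : kp σ ≤ k) (h2 : k ≤ kp (σ + 1)) {α γ : ℝ} (hα : 0 ≤ α) (hαγ : α ≤ γ) (hγ : γ ≤ 1) :
    |∑ n ∈ Finset.Ico (nuP A₀ 1 1 x (ll 1 K₀ ℓ₀ (kp σ))) (nuP A₀ 1 1 x (ll 1 K₀ ℓ₀ k)),
      ((if α ≤ Int.fract (pwf A₀ c 1 n x) ∧ Int.fract (pwf A₀ c 1 n x) < γ then (1 : ℝ) else 0) - ∫ t in α..γ, (1 + u n t))| ≤
      (cF (F0 X A₀ x₁ x₂ c) : ℕ) * ((K₀ + σ : ℕ) : ℝ) ^ 6 := by
  obtain ⟨a, ha1, ha2, hd, hg', hxa⟩ := hx k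
  obtain ⟨a₀, hS, h3, h4, h5⟩ := good_at R ha1 ha2 hd hg' h1 h2
  have hT := T_le R h1 h2 hS
  have hc := num_count (R.ok) (R.big σ) hT
  refine clsT (R.ok) (R.big σ) hS (ll_pos (κ := 1) R.pos K₀ k) (ll_anti (κ := 1) R.pos K₀ h1) ⟨h3.trans hxa.1, hxa.2.trans h4⟩ hT u hum hu1 hu0
    (fun q hq1 hq2 => ?_) hα hαγ hγ
  have hN := hN₁ a₀ hS
  have hu : ((0, fun _ => q) : ℕ × (Fin ((F0 X A₀ x₁ x₂ c).d + 1) → ℕ)) ∈ (F0 X A₀ x₁ x₂ c).Is (K₀ + σ) := by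
    unfold Pm.Is
    rw [Finset.mem_product]
    refine ⟨Finset.mem_range.2 Nat.zero_lt_one, ?_⟩
    exact mem_Qs0 hq1 hq2
  have h6 := stage_sumsT (R.ok) (R.big σ) hS (ll_pos (κ := 1) R.pos K₀ k) h3 h4 ((Nat.le_add_right _ _).trans hc) h5 hxa hu
  rw [htg] at h6
  exact conv_sum hq1 hN h6

end

/-! ## The main theorem -/

/-- the discrepancy of `A₀ x ^ n + c n` from the densities `1 + u n`, `n < N` -/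
def DensLe (A₀ : ℝ) (c : ℝ → ℝ) (u : ℕ → ℝ → ℝ) (x : ℝ) (N : ℕ) (E : ℝ) : Prop :=
  ∀ α γ : ℝ, 0 ≤ α → α ≤ γ → γ ≤ 1 → |∑ n ∈ Finset.range N, ((if α ≤ Int.fract (A₀ * x ^ (n : ℝ) + c n) ∧ Int.fract (A₀ * x ^ (n : ℝ) + c n) < γ then (1 : ℝ) else 0) -
    ∫ t in α..γ, (1 + u n t))| ≤ E

theorem dens_term {u : ℝ → ℝ} (hum : Measurable u) (hu1 : ∀ t, |u t| ≤ 1) {α γ : ℝ} (hα : 0 ≤ α) (hαγ : α ≤ γ) (hγ : γ ≤ 1) (P : Prop) [Decidable P] :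
    |(if P then (1 : ℝ) else 0) - ∫ t in α..γ, (1 + u t)| ≤ 2 := by
  have h1 : ‖∫ t in α..γ, (1 + u t)‖ ≤ 2 * |γ - α| := by
    refine intervalIntegral.norm_integral_le_of_norm_le_const fun t _ => ?_
    rw [Real.norm_eq_abs]
    refine (abs_add_le _ _).trans ?_
    rw [abs_one]
    linarith [hu1 t]
  have h2 : 0 ≤ ∫ t in α..γ, (1 + u t) := by
    refine intervalIntegral.integral_nonneg hαγ fun t _ => ?_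
    linarith [(abs_le.1 (hu1 t)).1]
  rw [Real.norm_eq_abs, abs_of_nonneg h2, abs_of_nonneg (by linarith)] at h1
  split_ifs
  · rw [abs_le]
    constructor <;> linarith
  · rw [abs_le]
    constructor <;> linarith

theorem mainT_ge {A₀ : ℝ} (hA : 0 < A₀) (c : ℝ → ℝ) (u : ℕ → ℝ → ℝ) (hum : ∀ n, Measurable (u n)) (hu1 : ∀ n t, |u n t| ≤ 1)
    (hu0 : ∀ n, ∫ t in (0 : ℝ)..1, u n t = 0) (hu : ∀ᶠ n : ℕ in atTop, ∀ t, |u n t| ≤ 1 / Real.log n ^ 5) {O : Set ℝ} (hO : IsOpen O) (hne : (O ∩ Ioi 1).Nonempty) {s : ℝ} (hs : 0 < s) (hs1 : s < 1) :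
    ENNReal.ofReal s ≤ dimH {x | x ∈ O ∧ ∃ N₀ : ℕ, ∀ N ≥ N₀, DensLe A₀ c u x N (Real.log N ^ 8)} := by
  classical
  obtain ⟨x₁, hx₁O, hx₁⟩ := hne
  have hx₁ : 1 < x₁ := hx₁
  obtain ⟨ρ, hρ, hball⟩ := Metric.isOpen_iff.1 hO x₁ hx₁O
  obtain ⟨L₀, hL₀⟩ : ∃ L₀ : ℝ, L₀ = min 1 (ρ / 2) := ⟨_, rfl⟩
  have hL₀pos : 0 < L₀ := by rw [hL₀]; positivity
  have hL₀1 : L₀ ≤ 1 := by rw [hL₀]; exact min_le_left _ _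
  have hL₀ρ : L₀ ≤ ρ / 2 := by rw [hL₀]; exact min_le_right _ _
  have hsub : Icc x₁ (x₁ + L₀) ⊆ O := by
    intro x hx
    refine hball ?_
    rw [Metric.mem_ball, Real.dist_eq, abs_of_nonneg (by linarith [hx.1])]
    linarith [hx.2]
  -- the phases
  obtain ⟨Xf, hok'⟩ := Pool.Agent.Helper41.LD7.exists_X hA hx₁ (x₂ := x₁ + L₀) (by linarith) c
  obtain ⟨X, hX⟩ : ∃ X : ℕ, X = Xf 0 := ⟨_, rfl⟩
  have hok : (F0 X A₀ x₁ (x₁ + L₀) c).Ok := by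
    rw [hX]
    exact hok' 0
  obtain ⟨K₁, hK₁⟩ := eventually_atTop.1 ((ev_len (κ := 1) le_rfl hL₀pos hL₀1).and (ev_mass6 hL₀pos hL₀1))
  obtain ⟨K₀, hK₀⟩ : ∃ K₀, K₀ = max (max ((F0 X A₀ x₁ (x₁ + L₀) c).Z ^ 4 + cF (F0 X A₀ x₁ (x₁ + L₀) c) ^ 2 + 4) K₁) 1 := ⟨_, rfl⟩
  have hK₀1 : 1 ≤ K₀ := by rw [hK₀]; exact le_max_right _ _
  have hK₀0 : (F0 X A₀ x₁ (x₁ + L₀) c).Z ^ 4 + cF (F0 X A₀ x₁ (x₁ + L₀) c) ^ 2 + 4 ≤ K₀ := by rw [hK₀]; exact (le_max_left _ _).trans (le_max_left _ _)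
  have hK₀2 : K₁ ≤ K₀ := by rw [hK₀]; exact (le_max_right _ _).trans (le_max_left _ _)
  have hspec : ∀ σ, (F0 X A₀ x₁ (x₁ + L₀) c).Big (K₀ + σ) ∧ cF (F0 X A₀ x₁ (x₁ + L₀) c) ^ 2 ≤ K₀ + σ ∧ 0 + 4 ≤ K₀ + σ := fun σ => by
    refine ⟨?_, by omega, by omega⟩
    show _ ^ 4 ≤ K₀ + σ
    omega
  obtain ⟨hlen, hmass⟩ := hK₁ K₀ hK₀2
  obtain ⟨kk, hkk⟩ := hmass (fun _ => 0 + 4) (fun _ => 75 * (0 + 1)) (fun _ => 200 * (0 + 2))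
    (fun σ => ⟨by omega, (hspec σ).2.2⟩) (fun σ => by omega)
  obtain ⟨ℓ₀, hℓ₀⟩ : ∃ ℓ₀ : ℝ, ℓ₀ = L₀ / 2 ^ ((4 * K₀) ^ (2 * 1 + 2)) := ⟨_, rfl⟩
  have hℓ₀pos : 0 < ℓ₀ := by rw [hℓ₀]; positivity
  have hℓ₀1 : ℓ₀ ≤ 1 := by
    rw [hℓ₀]
    exact (div_le_self hL₀pos.le (one_le_pow₀ (by norm_num))).trans hL₀1
  rw [← hℓ₀] at hlen
  have hbig : ∀ σ, (F0 X A₀ x₁ (x₁ + L₀) c).Big (K₀ + σ) := fun σ => (hspec σ).1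
  have hcov := fun σ => nr_cover hok (hbig σ)
  choose E hEc hE using hcov
  obtain ⟨N₁, hN₁⟩ := slow_all hok u hum hu hK₀1 hℓ₀pos hℓ₀1
  obtain ⟨tg, htg⟩ : ∃ tg, tg = tgD u N₁ := ⟨_, rfl⟩
  have R : Rq X A₀ x₁ (x₁ + L₀) c tg E K₀ ℓ₀ :=
    ⟨hok, hℓ₀pos, hbig, fun σ => hlen σ, fun σ x hx h => hE σ x hx h, fun σ a₀ hS => by rw [htg]; exact hN₁ σ a₀ (hbig σ) hS⟩
  have hKb : ∀ σ, 1000000000000 ≤ K₀ + σ := fun σ => num_K (hbig σ)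
  have hrad : ∀ σ, ll 1 K₀ ℓ₀ (kp σ) ≤ rad K₀ σ := by
    intro σ
    have h1 := (R.len σ).1
    have h2 : 200 * (0 + 2) * ((0 + 4) * (K₀ + σ)) ≤ (K₀ + σ) ^ 4 := by
      have h3 := (hspec σ).2.2
      have h4 := hKb σ
      calc 200 * (0 + 2) * ((0 + 4) * (K₀ + σ)) ≤ (K₀ + σ) * (K₀ + σ) * ((K₀ + σ) * (K₀ + σ)) := by
            refine Nat.mul_le_mul (Nat.mul_le_mul (by omega) (by omega)) (Nat.mul_le_mul_right _ h3)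
        _ = (K₀ + σ) ^ 4 := by ring
    have h3 : (2 : ℝ) ^ (200 * (0 + 2) * ((0 + 4) * (K₀ + σ))) ≤ 2 ^ ((K₀ + σ) ^ 4) := pow_le_pow_right₀ (by norm_num) h2
    have h4 : ll 1 K₀ ℓ₀ (kp σ) * 2 ^ (200 * (0 + 2) * ((0 + 4) * (K₀ + σ))) ≤ 1 :=
      (mul_le_mul_of_nonneg_left h3 (ll_pos hℓ₀pos K₀ _).le).trans h1
    unfold rad
    rw [one_div_pow, le_div_iff₀ (by positivity)]
    exact h4
  have hdim := dim_exc (num5 1 K₀) (len5 1 K₀ L₀) (pro6 (fun _ => 0 + 4) K₀) (Nd X A₀ x₁ (x₁ + L₀) c tg E K₀ ℓ₀) x₁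
    (fun k => by unfold num5; split_ifs <;> exact Nat.one_le_two_pow) (by rw [len5_zero]; exact hL₀pos) (fun k => len5_div k)
    ((tendsto_add_atTop_iff_nat 1).1 (by
      have h1 : (fun k => len5 1 K₀ L₀ (k + 1)) = ll 1 K₀ ℓ₀ := by
        funext k
        rw [len5_succ, hℓ₀]
      rw [h1]
      exact ll_tendsto hℓ₀pos hK₀1))
    (fun k => by unfold pro6; split_ifs <;> positivity)
    (fun k => by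
      unfold pro6
      split_ifs
      · exact le_rfl
      · exact pow_le_one₀ (by norm_num) (by norm_num)) (Or.inl ⟨rfl, rfl⟩) (fun k a hg => ?_) hs hs1
    (mass_bound6 hL₀pos hK₀1 (fun σ => ⟨by omega, (hspec σ).2.2⟩) hs hs1)
    E (fun σ => 2 * rad K₀ σ) kk (fun σ => by unfold rad; positivity) (fun n => ?_)
  rotate_left
  · -- the steps
    rcases hg with ⟨hk, ha⟩ | ⟨hk, ha1, ha2, hg⟩
    · subst hk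
      subst ha
      have h1 : ((Finset.range (num5 1 K₀ 0)).filter fun b : ℕ => Nd X A₀ a (a + L₀) c tg E K₀ ℓ₀ (0 + 1) (a + b * len5 1 K₀ L₀ (0 + 1))) =
          Finset.range (num5 1 K₀ 0) := by
        rw [Finset.filter_eq_self]
        intro b hb
        have h2 : len5 1 K₀ L₀ (0 + 1) = L₀ / (num5 1 K₀ 0 : ℕ) := by rw [len5_div, len5_zero]
        have h3 : ll 1 K₀ ℓ₀ 0 = L₀ / (num5 1 K₀ 0 : ℕ) := by rw [← h2, len5_succ, hℓ₀]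
        obtain ⟨h4, h5⟩ := child_in (a := a) hL₀pos (Finset.mem_range.1 hb)
        rw [h2]
        refine Or.inr ⟨le_rfl, h4, ?_, Or.inr fun σ h6 _ => absurd h6 (Nat.not_lt_zero _)⟩
        show _ + ll 1 K₀ ℓ₀ (0 + 1 - 1) ≤ _
        rw [Nat.add_sub_cancel, h3]
        exact h5
      have h2 : pro6 (fun _ => 0 + 4) K₀ 0 = 1 := by unfold pro6; rw [if_pos rfl]
      rw [h2, one_mul]
      have h3 := congrArg Finset.card h1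
      rw [Finset.card_range] at h3
      refine le_of_eq ?_
      exact_mod_cast h3.symm
    · obtain ⟨j, rfl⟩ := Nat.exists_eq_succ_of_ne_zero (by omega : k ≠ 0)
      have e1 : j.succ - 1 = j := rfl
      rw [e1] at ha2 hg
      have h1 := nd_step R j a ha1 ha2 hg
      have h3 : num5 1 K₀ j.succ = 2 ^ (Kk K₀ j ^ 3) := by
        unfold num5
        rw [if_neg (Nat.succ_ne_zero j), e1]
      have h4 : len5 1 K₀ L₀ (j.succ + 1) = ll 1 K₀ ℓ₀ (j + 1) := by rw [len5_succ, hℓ₀]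
      rw [h3, h4]
      refine h1.trans ?_
      refine (Nat.cast_le (α := ℝ)).2 (Finset.card_le_card fun b hb => ?_)
      rw [Finset.mem_filter] at hb ⊢
      exact ⟨hb.1, Or.inr ⟨Nat.succ_le_succ (Nat.zero_le _), hb.2.1, hb.2.2.1, hb.2.2.2⟩⟩
  · -- the mass of the resonances
    refine le_trans (Finset.sum_le_sum fun σ _ => ?_) (hkk n)
    have h1 : ((E σ).card : ℝ) ≤ ((2 ^ (75 * (0 + 1) * ((0 + 4) * (K₀ + σ))) : ℕ) : ℝ) := by exact_mod_cast hEc σ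
    refine mul_le_mul_of_nonneg_right h1 ?_
    have h2 : 0 < len5 1 K₀ L₀ 0 := by rw [len5_zero]; exact hL₀pos
    have h3 : 0 ≤ len5 1 K₀ L₀ (kk σ) := by
      unfold len5
      split_ifs
      · exact hL₀pos.le
      · exact (ll_pos (by rw [← hℓ₀]; exact hℓ₀pos) _ _).le
    have h4 : 0 ≤ ∏ j ∈ Finset.range (kk σ), (pro6 (fun _ => 0 + 4) K₀ j)⁻¹ := Finset.prod_nonneg fun j _ => by
      unfold pro6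
      split_ifs <;> positivity
    refine mul_nonneg (div_nonneg (add_nonneg ?_ (mul_nonneg two_pos.le h3)) h2.le) h4
    show 0 ≤ 2 * (2 * rad K₀ σ)
    unfold rad
    positivity
  refine hdim.trans (dimH_mono ?_)
  rintro x ⟨hx0, hx, hxE⟩
  rw [len5_zero] at hx0
  have hxP : Pt X A₀ x₁ (x₁ + L₀) c tg E K₀ ℓ₀ x := by
    intro k
    obtain ⟨a, hg, hxa⟩ := hx (k + 1)
    have h1 : len5 1 K₀ L₀ (k + 1) = ll 1 K₀ ℓ₀ k := by rw [len5_succ, hℓ₀]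
    rw [h1] at hxa
    rcases hg with ⟨h2, -⟩ | ⟨-, ha1, ha2, hg⟩
    · exact absurd h2 (Nat.succ_ne_zero k)
    · rw [Nat.add_sub_cancel] at ha2 hg
      have hd : ¬ Dead E K₀ ℓ₀ k a := by
        rintro ⟨σ, a', e1, e2, e3, y, hy, z, hz, hzy⟩
        refine hxE σ y hy ?_
        have h3 := hrad σ
        constructor
        · linarith [hxa.1, hxa.2, hz.1, hz.2, hzy.1, hzy.2]
        · linarith [hxa.1, hxa.2, hz.1, hz.2, hzy.1, hzy.2]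
      exact ⟨a, ha1, ha2, hd, hg.resolve_left hd, hxa⟩
  have hKp : ∀ σ, Kk K₀ (kp σ) = K₀ + σ := fun σ => Kk_phase K₀ le_rfl (kp_strict (Nat.lt_succ_self σ))
  have hx1 : 1 < x := hx₁.trans_le hx0.1
  refine ⟨hsub hx0, ?_⟩
  have hrg₀ : (1 : ℝ) = ((1 : ℕ) : ℝ) / ((1 : ℕ) : ℝ) := by norm_num
  have hmono := nuP_mono (κ := 1) (e := 1) hA (one_pos : 0 < 1) le_rfl hx1 hℓ₀pos K₀
  obtain ⟨C₁, hC₁⟩ := nuP_succ (κ := 1) (e := 1) hA (one_pos : 0 < 1) le_rfl hx1 hℓ₀pos K₀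
  obtain ⟨C₂, hC₂⟩ := nuP_ge (κ := 1) (e := 1) hA (one_pos : 0 < 1) le_rfl hx1 hℓ₀pos hℓ₀1 hK₀1
  obtain ⟨i₀, hi₀⟩ := n₀_ge hok hℓ₀pos (K₀ := K₀) N₁
  obtain ⟨N₀, hN₀⟩ := asmT (β := {p : ℝ × ℝ // 0 ≤ p.1 ∧ p.1 ≤ p.2 ∧ p.2 ≤ 1})
    (fun b n => (if b.1.1 ≤ Int.fract (pwf A₀ c 1 n x) ∧ Int.fract (pwf A₀ c 1 n x) < b.1.2 then (1 : ℝ) else 0) - ∫ t in b.1.1..b.1.2, (1 + u n t))
    (fun b n => dens_term (hum n) (hu1 n) b.2.1 b.2.2.1 b.2.2.2 _)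
    (κ := 1) (e := 6) hK₀1 hmono hC₁ hC₂ kp_strict (by omega)
    (fun σ => by rw [hKp]; exact Nat.le_add_left _ _)
    (G := fun _ => cF (F0 X A₀ x₁ (x₁ + L₀) c)) (i := i₀) (fun σ _ => by rw [hKp]; exact (hspec σ).2.1) (by
      intro σ hσ k h1 h2 b
      rw [hKp]
      exact sum_box R hxP htg hum hu1 hu0 (fun a₀ hS => hi₀ σ hσ a₀ (hbig σ) hS) h1 h2 b.2.1 b.2.2.1 b.2.2.2)
  refine ⟨N₀, fun N hN α γ hα hαγ hγ => ?_⟩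
  have h5 := hN₀ N hN ⟨(α, γ), hα, hαγ, hγ⟩
  have h6 : ∀ n : ℕ, pwf A₀ c 1 n x = A₀ * x ^ (n : ℝ) + c n := fun n => by
    unfold pwf
    rw [Nat.cast_one, div_one]
  simp only [h6] at h5
  exact h5

/-- **prescribed densities for the powers** -/
theorem mainT {A₀ : ℝ} (hA : 0 < A₀) (c : ℝ → ℝ) (u : ℕ → ℝ → ℝ) (hum : ∀ n, Measurable (u n)) (hu1 : ∀ n t, |u n t| ≤ 1)
    (hu0 : ∀ n, ∫ t in (0 : ℝ)..1, u n t = 0) (hu : ∀ᶠ n : ℕ in atTop, ∀ t, |u n t| ≤ 1 / Real.log n ^ 5) {O : Set ℝ} (hO : IsOpen O)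
    (hne : (O ∩ Ioi 1).Nonempty) :
    dimH {x | x ∈ O ∧ ∃ N₀ : ℕ, ∀ N ≥ N₀, DensLe A₀ c u x N (Real.log N ^ 8)} = 1 := by
  refine le_antisymm (dimH_le_one _) ?_
  have h1 : Tendsto (fun m : ℕ => ENNReal.ofReal (1 - 1 / ((m : ℝ) + 2))) atTop (𝓝 1) := by
    have h2 : Tendsto (fun m : ℕ => 1 - 1 / ((m : ℝ) + 2)) atTop (𝓝 (1 - 0)) := by
      refine Tendsto.sub tendsto_const_nhds ?_
      have h3 : Tendsto (fun m : ℕ => (m : ℝ) + 2) atTop atTop :=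
        tendsto_natCast_atTop_atTop.atTop_add tendsto_const_nhds
      have h5 := tendsto_inv_atTop_zero.comp h3
      refine h5.congr fun m => ?_
      rw [Function.comp_apply, one_div]
    rw [sub_zero] at h2
    have h4 := (ENNReal.continuous_ofReal.tendsto 1).comp h2
    rwa [ENNReal.ofReal_one] at h4
  refine le_of_tendsto h1 (Eventually.of_forall fun m => ?_)
  refine mainT_ge hA c u hum hu1 hu0 hu hO hne ?_ ?_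
  · have : (1 : ℝ) / ((m : ℝ) + 2) < 1 := by
      rw [div_lt_one (by positivity)]
      have : (0 : ℝ) ≤ m := Nat.cast_nonneg m
      linarith
    linarith
  · have : (0 : ℝ) < 1 / ((m : ℝ) + 2) := by positivity
    linarith

end Pool.Agent.Helper41.PD
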