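import Pool.Agent.Helper41.PD.Main

/-!
# The powers `x ^ n` with prescribed discrepancy
-/

set_option autoImplicit false

open Set MeasureTheory Filter Topology

namespace Pool.Agent.Helper41.PDR

/-- The number of `n < N` with `α ≤ {y n} < γ`, `{·}` the fractional part. -/
noncomputable def count (y : ℕ → ℝ) (N : ℕ) (α γ : ℝ) : ℝ :=
  (((Finset.range N).filter fun n : ℕ => α ≤ Int.fract (y n) ∧ Int.fract (y n) < γ).card : ℝ)

/-- The discrepancy `N D_N` of the first `N` terms of `y` modulo one, not divided by `N`: the supremum over `0 ≤ α ≤ γ ≤ 1` of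
`|#{n < N : α ≤ {y n} < γ} - N (γ - α)|`. -/
noncomputable def disc (y : ℕ → ℝ) (N : ℕ) : ℝ :=
  ⨆ p : {p : ℝ × ℝ // 0 ≤ p.1 ∧ p.1 ≤ p.2 ∧ p.2 ≤ 1}, |count y N p.1.1 p.1.2 - N * (p.1.2 - p.1.1)|

theorem count_eq (y : ℕ → ℝ) (N : ℕ) (α γ : ℝ) :
    count y N α γ = ∑ n ∈ Finset.range N, if α ≤ Int.fract (y n) ∧ Int.fract (y n) < γ then (1 : ℝ) else 0 := by
  unfold count
  rw [Finset.card_filter]
  push_cast
  rfl

/-- the densities -/
theorem dens {O : Set ℝ} (hO : IsOpen O) (hne : (O ∩ Ioi 1).Nonempty) {A : ℝ} (hA : 0 < A) (b : ℕ → ℝ) {f : ℕ → ℝ → ℝ}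
    (hfm : ∀ n, Measurable (f n)) (hf1 : ∀ n, ∀ t ∈ Icc (0 : ℝ) 1, 0 ≤ f n t ∧ f n t ≤ 2) (hf0 : ∀ n, ∫ t in (0 : ℝ)..1, f n t = 1)
    (hf : ∀ᶠ n : ℕ in atTop, ∀ t ∈ Icc (0 : ℝ) 1, |f n t - 1| ≤ 1 / Real.log n ^ 5) :
    dimH {x | x ∈ O ∧ ∃ N₀ : ℕ, ∀ N ≥ N₀, ∀ α γ : ℝ, 0 ≤ α → α ≤ γ → γ ≤ 1 →
      |count (fun n => A * x ^ n + b n) N α γ - ∑ n ∈ Finset.range N, ∫ t in α..γ, f n t| ≤ Real.log N ^ 8} = 1 := by
  classical
  obtain ⟨u, hu⟩ : ∃ u : ℕ → ℝ → ℝ, u = fun n => (Icc (0 : ℝ) 1).indicator fun t => f n t - 1 := ⟨_, rfl⟩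
  have hum : ∀ n, Measurable (u n) := fun n => by
    rw [hu]
    exact ((hfm n).sub_const 1).indicator measurableSet_Icc
  have huE : ∀ n, ∀ t ∈ Icc (0 : ℝ) 1, u n t = f n t - 1 := fun n t ht => by
    rw [hu]
    exact Set.indicator_of_mem ht _
  have hu1 : ∀ n t, |u n t| ≤ 1 := fun n t => by
    by_cases ht : t ∈ Icc (0 : ℝ) 1
    · rw [huE n t ht, abs_le]
      have := hf1 n t ht
      constructor <;> linarith [this.1, this.2]
    · rw [hu]
      show |(Icc (0 : ℝ) 1).indicator _ t| ≤ 1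
      rw [Set.indicator_of_notMem ht, abs_zero]
      exact zero_le_one
  have hint : ∀ n, ∀ α γ : ℝ, 0 ≤ α → α ≤ γ → γ ≤ 1 → ∫ t in α..γ, (1 + u n t) = ∫ t in α..γ, f n t := fun n α γ hα hαγ hγ => by
    refine intervalIntegral.integral_congr fun t ht => ?_
    rw [uIcc_of_le hαγ] at ht
    show 1 + u n t = f n t
    rw [huE n t ⟨hα.trans ht.1, ht.2.trans hγ⟩]
    ring
  have hu0 : ∀ n, ∫ t in (0 : ℝ)..1, u n t = 0 := fun n => by
    have hi : IntervalIntegrable (f n) volume 0 1 := by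
      refine (intervalIntegrable_const (c := (2 : ℝ))).mono_fun ((hfm n).aestronglyMeasurable) ?_
      refine (ae_restrict_iff' measurableSet_uIoc).2 (Eventually.of_forall fun t ht => ?_)
      rw [uIoc_of_le zero_le_one] at ht
      have := hf1 n t ⟨ht.1.le, ht.2⟩
      show ‖f n t‖ ≤ ‖(2 : ℝ)‖
      rw [Real.norm_eq_abs, Real.norm_eq_abs, abs_of_nonneg this.1, abs_two]
      exact this.2
    have h1 : ∫ t in (0 : ℝ)..1, u n t = ∫ t in (0 : ℝ)..1, (f n t - 1) := by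
      refine intervalIntegral.integral_congr fun t ht => ?_
      rw [uIcc_of_le zero_le_one] at ht
      exact huE n t ht
    rw [h1, intervalIntegral.integral_sub hi intervalIntegrable_const, hf0 n, intervalIntegral.integral_const]
    norm_num
  have hue : ∀ᶠ n : ℕ in atTop, ∀ t, |u n t| ≤ 1 / Real.log n ^ 5 := by
    filter_upwards [hf] with n hn t
    by_cases ht : t ∈ Icc (0 : ℝ) 1
    · rw [huE n t ht]
      exact hn t ht
    · rw [hu]
      show |(Icc (0 : ℝ) 1).indicator _ t| ≤ _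
      rw [Set.indicator_of_notMem ht, abs_zero]
      have : 0 ≤ Real.log n := Real.log_natCast_nonneg n
      positivity
  obtain ⟨c, hc⟩ : ∃ c : ℝ → ℝ, c = fun y => b ⌊y⌋₊ := ⟨_, rfl⟩
  have hcn : ∀ n : ℕ, c n = b n := fun n => by rw [hc]; show b ⌊(n : ℝ)⌋₊ = b n; rw [Nat.floor_natCast]
  have key := Pool.Agent.Helper41.PD.mainT hA c u hum hu1 hu0 hue hO hne
  refine le_antisymm (Pool.Agent.Helper41.LD2.dimH_le_one _) ?_
  rw [← key]
  refine dimH_mono ?_
  rintro x ⟨hx, N₀, h⟩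
  refine ⟨hx, N₀, fun N hN α γ hα hαγ hγ => ?_⟩
  have h1 := h N hN α γ hα hαγ hγ
  rw [count_eq, ← Finset.sum_sub_distrib]
  have e : ∑ n ∈ Finset.range N, ((if α ≤ Int.fract (A * x ^ n + b n) ∧ Int.fract (A * x ^ n + b n) < γ then (1 : ℝ) else 0) - ∫ t in α..γ, f n t) =
      ∑ n ∈ Finset.range N, ((if α ≤ Int.fract (A * x ^ (n : ℝ) + c n) ∧ Int.fract (A * x ^ (n : ℝ) + c n) < γ then (1 : ℝ) else 0) -
        ∫ t in α..γ, (1 + u n t)) := by
    refine Finset.sum_congr rfl fun n _ => ?_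
    rw [hint n α γ hα hαγ hγ, Real.rpow_natCast, hcn]
  rw [e]
  exact h1

/-- the sign function of the halves -/
noncomputable def sg (t : ℝ) : ℝ := if t < 1 / 2 then 1 else -1

theorem sg_meas : Measurable sg := Measurable.ite measurableSet_Iio measurable_const measurable_const

theorem sg_abs (t : ℝ) : |sg t| = 1 := by
  unfold sg
  split_ifs <;> norm_num

theorem sg_int (a b : ℝ) : IntervalIntegrable sg volume a b := by
  refine (intervalIntegrable_const (c := (1 : ℝ))).mono_fun sg_meas.aestronglyMeasurable ?_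
  refine Eventually.of_forall fun t => ?_
  show ‖sg t‖ ≤ ‖(1 : ℝ)‖
  rw [Real.norm_eq_abs, Real.norm_eq_abs, sg_abs, abs_one]

theorem sg_integral {α γ : ℝ} (hαγ : α ≤ γ) : ∫ t in α..γ, sg t = |α - 1 / 2| - |γ - 1 / 2| := by
  have h1 : ∀ a b : ℝ, a ≤ b → b ≤ 1 / 2 → ∫ t in a..b, sg t = b - a := fun a b hab hb => by
    rw [intervalIntegral.integral_of_le hab, MeasureTheory.integral_Ioc_eq_integral_Ioo,
      setIntegral_congr_fun (g := fun _ => (1 : ℝ)) measurableSet_Ioo (fun t ht => by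
        show sg t = 1
        unfold sg
        rw [if_pos (ht.2.trans_le hb)])]
    rw [← MeasureTheory.integral_Ioc_eq_integral_Ioo, ← intervalIntegral.integral_of_le hab, intervalIntegral.integral_const, smul_eq_mul, mul_one]
  have h2 : ∀ a b : ℝ, a ≤ b → 1 / 2 ≤ a → ∫ t in a..b, sg t = -(b - a) := fun a b hab ha => by
    have h3 : ∫ t in a..b, sg t = ∫ _t in a..b, (-1 : ℝ) := by
      refine intervalIntegral.integral_congr fun t ht => ?_
      rw [uIcc_of_le hab] at ht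
      show sg t = -1
      unfold sg
      rw [if_neg (by linarith [ht.1])]
    rw [h3, intervalIntegral.integral_const, smul_eq_mul]
    ring
  rcases le_total γ (1 / 2) with hγ | hγ
  · rw [h1 α γ hαγ hγ, abs_of_nonpos (by linarith), abs_of_nonpos (by linarith)]
    ring
  · rcases le_total α (1 / 2) with hα | hα
    · rw [← intervalIntegral.integral_add_adjacent_intervals (sg_int α (1 / 2)) (sg_int (1 / 2) γ), h1 α (1 / 2) hα le_rfl, h2 (1 / 2) γ hγ le_rfl,
        abs_of_nonpos (by linarith), abs_of_nonneg (by linarith)]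
      ring
    · rw [h2 α γ hαγ hα, abs_of_nonneg (by linarith), abs_of_nonneg (by linarith)]
      ring

theorem disc_bdd (y : ℕ → ℝ) (N : ℕ) : BddAbove (range fun p : {p : ℝ × ℝ // 0 ≤ p.1 ∧ p.1 ≤ p.2 ∧ p.2 ≤ 1} => |count y N p.1.1 p.1.2 - N * (p.1.2 - p.1.1)|) := by
  refine ⟨N, ?_⟩
  rintro _ ⟨p, rfl⟩
  obtain ⟨h1, h2, h3⟩ := p.2
  have h4 : count y N p.1.1 p.1.2 ≤ N := by
    unfold count
    have := Finset.card_filter_le (Finset.range N) (fun n : ℕ => p.1.1 ≤ Int.fract (y n) ∧ Int.fract (y n) < p.1.2)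
    rw [Finset.card_range] at this
    exact_mod_cast this
  have h5 : 0 ≤ count y N p.1.1 p.1.2 := by
    unfold count
    exact Nat.cast_nonneg _
  have h6 : (0 : ℝ) ≤ N := Nat.cast_nonneg _
  have h7 : (N : ℝ) * (p.1.2 - p.1.1) ≤ N := mul_le_of_le_one_right h6 (by linarith)
  have h8 : 0 ≤ (N : ℝ) * (p.1.2 - p.1.1) := mul_nonneg h6 (by linarith)
  show |_| ≤ (N : ℝ)
  rw [abs_le]
  constructor <;> linarith

/-- **Prescribed discrepancy.** Let `O` be an open set that meets `(1, ∞)`, `A > 0` and `b : ℕ → ℝ` any sequence (`A = 1`, `b = 0`: the powers `x ^ n`). The set of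
the `x ∈ O` with the following property has Hausdorff dimension `1`.
(1) For any prescribed `g ≥ 0` with `|g (N + 1) - g N| ≤ (log N)^(-6)` for all large `N`: `N D_N = g N + O((log N)^8)` for the sequence `A x ^ n + b n`. So every
order of the discrepancy between `(log N)^8` and `N / (log N)^6` occurs.
(2) More generally, for any prescribed probability densities `f n ≤ 2` on `[0, 1]` with `|f n - 1| ≤ (log n)^(-5)` for all large `n`: the number of the `n < N` with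
`A x ^ n + b n` modulo one in `[α, γ)` is `∑_{n < N} ∫_α^γ f n`, up to `(log N)^8`, for all `0 ≤ α ≤ γ ≤ 1` and all large `N`. -/
theorem result : ∀ O : Set ℝ, IsOpen O → (O ∩ Ioi 1).Nonempty → ∀ A : ℝ, 0 < A → ∀ b : ℕ → ℝ,
    (∀ g : ℕ → ℝ, (∀ N, 0 ≤ g N) → (∀ᶠ N : ℕ in atTop, |g (N + 1) - g N| ≤ 1 / Real.log N ^ 6) →
      dimH {x | x ∈ O ∧ ∃ C : ℝ, ∀ N : ℕ, 2 ≤ N → |disc (fun n => A * x ^ n + b n) N - g N| ≤ C * Real.log N ^ 8} = 1) ∧
    ∀ f : ℕ → ℝ → ℝ, (∀ n, Measurable (f n)) → (∀ n, ∀ t ∈ Icc (0 : ℝ) 1, 0 ≤ f n t ∧ f n t ≤ 2) → (∀ n, ∫ t in (0 : ℝ)..1, f n t = 1) →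
      (∀ᶠ n : ℕ in atTop, ∀ t ∈ Icc (0 : ℝ) 1, |f n t - 1| ≤ 1 / Real.log n ^ 5) →
        dimH {x | x ∈ O ∧ ∃ N₀ : ℕ, ∀ N ≥ N₀, ∀ α γ : ℝ, 0 ≤ α → α ≤ γ → γ ≤ 1 →
          |count (fun n => A * x ^ n + b n) N α γ - ∑ n ∈ Finset.range N, ∫ t in α..γ, f n t| ≤ Real.log N ^ 8} = 1 := by
  intro O hO hne A hA b
  refine ⟨fun g hg0 hg => ?_, fun f hfm hf1 hf0 hf => dens hO hne hA b hfm hf1 hf0 hf⟩
  classical
  have hlim : Tendsto (fun N : ℕ => Real.log N) atTop atTop := Real.tendsto_log_atTop.comp tendsto_natCast_atTop_atTop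
  obtain ⟨n₁, hn₁⟩ := eventually_atTop.1 (hg.and (hlim.eventually_ge_atTop 2))
  obtain ⟨δ, hδ⟩ : ∃ δ : ℕ → ℝ, δ = fun n => if n₁ ≤ n then 2 * (g (n + 1) - g n) else 0 := ⟨_, rfl⟩
  have hδ5 : ∀ n, n₁ ≤ n → |δ n| ≤ 1 / Real.log n ^ 5 ∧ |δ n| ≤ 1 := fun n hn => by
    obtain ⟨h1, h2⟩ := hn₁ n hn
    rw [hδ]
    show |if n₁ ≤ n then 2 * (g (n + 1) - g n) else 0| ≤ _ ∧ |if n₁ ≤ n then 2 * (g (n + 1) - g n) else 0| ≤ 1
    rw [if_pos hn, abs_mul, abs_two]
    have h3 : 1 / Real.log n ^ 6 * 2 ≤ 1 / Real.log n ^ 5 := by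
      rw [div_mul_eq_mul_div, one_mul, div_le_div_iff₀ (by positivity) (by positivity)]
      have : 0 ≤ Real.log n ^ 5 := by positivity
      nlinarith [pow_succ (Real.log n) 5]
    have h4 : 1 / Real.log n ^ 5 ≤ 1 := by
      rw [div_le_one (by positivity)]
      exact one_le_pow₀ (by linarith)
    constructor <;> linarith
  have hδ0 : ∀ n, n < n₁ → δ n = 0 := fun n hn => by
    rw [hδ]
    exact if_neg (by omega)
  have hδ1 : ∀ n, |δ n| ≤ 1 := fun n => by
    rcases lt_or_ge n n₁ with h | h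
    · rw [hδ0 n h, abs_zero]
      exact zero_le_one
    · exact (hδ5 n h).2
  have hsum : ∀ N, n₁ ≤ N → ∑ n ∈ Finset.range N, δ n = 2 * (g N - g n₁) := fun N hN => by
    induction N, hN using Nat.le_induction with
    | base =>
      rw [Finset.sum_eq_zero fun n hn => hδ0 n (Finset.mem_range.1 hn)]
      ring
    | succ N hN ih =>
      rw [Finset.sum_range_succ, ih, hδ]
      show _ + (if n₁ ≤ N then 2 * (g (N + 1) - g N) else 0) = _
      rw [if_pos hN]
      ring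
  have hint : ∀ n : ℕ, ∀ α γ : ℝ, α ≤ γ → ∫ t in α..γ, (1 + δ n * sg t) = (γ - α) + δ n * (|α - 1 / 2| - |γ - 1 / 2|) := fun n α γ hαγ => by
    rw [intervalIntegral.integral_add intervalIntegrable_const ((sg_int α γ).const_mul _), intervalIntegral.integral_const,
      intervalIntegral.integral_const_mul, sg_integral hαγ, smul_eq_mul, mul_one]
  have key := dens hO hne hA b (f := fun n t => 1 + δ n * sg t) (fun n => (sg_meas.const_mul _).const_add _)
    (fun n t _ => by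
      have h1 : |δ n * sg t| ≤ 1 := by
        rw [abs_mul, sg_abs, mul_one]
        exact hδ1 n
      rw [abs_le] at h1
      constructor <;> linarith [h1.1, h1.2])
    (fun n => by
      rw [hint n 0 1 zero_le_one]
      norm_num)
    (by
      filter_upwards [eventually_ge_atTop n₁] with n hn t _
      have e : 1 + δ n * sg t - 1 = δ n * sg t := by ring
      rw [e, abs_mul, sg_abs, mul_one]
      exact (hδ5 n hn).1)
  refine le_antisymm (Pool.Agent.Helper41.LD2.dimH_le_one _) ?_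
  rw [← key]
  refine dimH_mono ?_
  rintro x ⟨hx, N₀, h⟩
  refine ⟨hx, ?_⟩
  obtain ⟨y, hy⟩ : ∃ y : ℕ → ℝ, y = fun n => A * x ^ n + b n := ⟨_, rfl⟩
  rw [← hy] at h ⊢
  have hmain : ∀ N, N₀ ≤ N → n₁ ≤ N → |disc y N - g N| ≤ g n₁ + Real.log N ^ 8 := fun N hN hN' => by
    have hE : ∀ α γ : ℝ, 0 ≤ α → α ≤ γ → γ ≤ 1 →
        |count y N α γ - N * (γ - α) - 2 * (g N - g n₁) * (|α - 1 / 2| - |γ - 1 / 2|)| ≤ Real.log N ^ 8 := fun α γ hα hαγ hγ => by
      have h1 := h N hN α γ hα hαγ hγ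
      rw [Finset.sum_congr rfl fun n _ => hint n α γ hαγ, Finset.sum_add_distrib, Finset.sum_const, Finset.card_range, nsmul_eq_mul,
        ← Finset.sum_mul, hsum N hN'] at h1
      have e : count y N α γ - N * (γ - α) - 2 * (g N - g n₁) * (|α - 1 / 2| - |γ - 1 / 2|) =
          count y N α γ - (N * (γ - α) + 2 * (g N - g n₁) * (|α - 1 / 2| - |γ - 1 / 2|)) := by ring
      rw [e]
      exact h1
    have hgN := hg0 N
    have hg1 := hg0 n₁
    rw [abs_le]
    constructor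
    · have h1 := hE 0 (1 / 2) le_rfl (by norm_num) (by norm_num)
      have h2 : |count y N 0 (1 / 2) - N * (1 / 2 - 0)| ≤ disc y N :=
        le_ciSup (disc_bdd y N) ⟨(0, 1 / 2), le_rfl, by norm_num, by norm_num⟩
      have h3 : |(0 : ℝ) - 1 / 2| - |(1 : ℝ) / 2 - 1 / 2| = 1 / 2 := by norm_num
      rw [h3] at h1
      have h4 := neg_abs_le (count y N 0 (1 / 2) - N * (1 / 2 - 0))
      have h5 := le_abs_self (count y N 0 (1 / 2) - N * (1 / 2 - 0))
      rw [abs_le] at h1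
      linarith [h1.1, h1.2]
    · have h1 : disc y N ≤ g N + g n₁ + Real.log N ^ 8 := by
        have : Nonempty {p : ℝ × ℝ // 0 ≤ p.1 ∧ p.1 ≤ p.2 ∧ p.2 ≤ 1} := ⟨⟨(0, 1), le_rfl, zero_le_one, le_rfl⟩⟩
        refine ciSup_le fun p => ?_
        obtain ⟨hα, hαγ, hγ⟩ := p.2
        have h2 := hE p.1.1 p.1.2 hα hαγ hγ
        have h3 : |p.1.1 - 1 / 2| ≤ 1 / 2 := by
          rw [abs_le]
          constructor <;> linarith
        have h4 : |p.1.2 - 1 / 2| ≤ 1 / 2 := by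
          rw [abs_le]
          constructor <;> linarith
        have h5 := abs_nonneg (p.1.1 - 1 / 2)
        have h6 := abs_nonneg (p.1.2 - 1 / 2)
        have h7 : |2 * (g N - g n₁) * (|p.1.1 - 1 / 2| - |p.1.2 - 1 / 2|)| ≤ g N + g n₁ := by
          rw [abs_mul, abs_mul, abs_two]
          have h8 : |g N - g n₁| ≤ g N + g n₁ := by
            rw [abs_le]
            constructor <;> linarith
          have h9 : |(|p.1.1 - 1 / 2| - |p.1.2 - 1 / 2|)| ≤ 1 / 2 := by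
            rw [abs_le]
            constructor <;> linarith
          have h10 := abs_nonneg (g N - g n₁)
          nlinarith [abs_nonneg (|p.1.1 - 1 / 2| - |p.1.2 - 1 / 2|)]
        have h8 : count y N p.1.1 p.1.2 - N * (p.1.2 - p.1.1) =
            (count y N p.1.1 p.1.2 - N * (p.1.2 - p.1.1) - 2 * (g N - g n₁) * (|p.1.1 - 1 / 2| - |p.1.2 - 1 / 2|)) +
              2 * (g N - g n₁) * (|p.1.1 - 1 / 2| - |p.1.2 - 1 / 2|) := by ring
        rw [h8]
        refine (abs_add_le _ _).trans ?_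
        linarith
      linarith
  obtain ⟨N₂, hN₂⟩ : ∃ N₂ : ℕ, N₂ = max N₀ n₁ := ⟨_, rfl⟩
  have hl2 : 0 < Real.log 2 := Real.log_pos (by norm_num)
  obtain ⟨S, hS⟩ : ∃ S : ℝ, S = ∑ N ∈ Finset.range N₂, |disc y N - g N| := ⟨_, rfl⟩
  have hS0 : 0 ≤ S := by
    rw [hS]
    exact Finset.sum_nonneg fun _ _ => abs_nonneg _
  refine ⟨1 + (g n₁ + S) / Real.log 2 ^ 8, fun N hN => ?_⟩
  have hlog : Real.log 2 ≤ Real.log N := Real.log_le_log (by norm_num) (by exact_mod_cast hN)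
  have hpow : Real.log 2 ^ 8 ≤ Real.log N ^ 8 := pow_le_pow_left₀ hl2.le hlog 8
  have hg1 := hg0 n₁
  have hq : g n₁ + S ≤ (g n₁ + S) / Real.log 2 ^ 8 * Real.log N ^ 8 := by
    rw [div_mul_eq_mul_div, le_div_iff₀ (by positivity)]
    exact mul_le_mul_of_nonneg_left hpow (by linarith)
  have hp8 : 0 ≤ Real.log N ^ 8 := by positivity
  rw [add_mul, one_mul]
  rcases lt_or_ge N N₂ with h1 | h1
  · have h2 : |disc y N - g N| ≤ S := by
      rw [hS]
      exact Finset.single_le_sum (f := fun N => |disc y N - g N|) (fun _ _ => abs_nonneg _) (Finset.mem_range.2 h1)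
    linarith
  · have h2 := hmain N ((le_max_left _ _).trans (hN₂ ▸ h1)) ((le_max_right _ _).trans (hN₂ ▸ h1))
    linarith

end Pool.Agent.Helper41.PDR
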