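import Pool.Agent.Helper41.PD.Defs
import Pool.Agent.Helper46.LD7.STA

/-!
# Project PD: start of a stage, the sums on a good window
-/

set_option autoImplicit false

namespace Pool.Agent.Helper41.PD

open Set MeasureTheory Filter Topology
open Pool.Agent.Helper41.LD4 (A M W Pot NB NBg)
open Pool.Agent.Helper41.LD6 (hr vr lv Qs vq lev Lv NR6 Gr Wq bx)
open Pool.Agent.Helper41.LD7
open Pool.Agent.Helper46.LD4 (W_nonneg)
open Pool.Agent.Helper9.LD6 (sum_sub_M)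
open Pool.Agent.Helper4.LD6 (Qs_card vq_lo)
open Pool.Agent.Helper9.LD7 (win)
open Pool.Agent.Helper17.LD7 (G_NB om_pos sp_lev)
open Pool.Agent.Helper68.LD7 (T_start)
open Pool.Agent.Helper76.LD7 (num_K num_Z num_le num_E num_R)
open Pool.Agent.Helper46.LD7 (X_pos lam_pos stage_start7)

theorem PotT_nonneg {ℓ : ℝ} (G : ℕ → ℝ → ℝ) (n r : ℕ) (lam g a : ℝ) (hℓ : 0 < ℓ) : 0 ≤ PotT G n r lam g a ℓ := by
  unfold PotT
  have h1 := W_nonneg G n r a hℓ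
  have h2 := (Real.cosh_pos (lam * (M G a ℓ - g))).le
  positivity

theorem M_of_PotT {G : ℕ → ℝ → ℝ} {n r K : ℕ} {lam g a ℓ : ℝ} (hℓ : 0 < ℓ) (hlam : 0 < lam) (h : PotT G n r lam g a ℓ ≤ 16 ^ K) :
    |M G a ℓ - g| ≤ (3 * K + 1) / lam := by
  have h1 : Real.cosh (lam * (M G a ℓ - g)) ≤ 16 ^ K := by
    refine le_trans ?_ h
    unfold PotT
    have h1 := Real.one_le_cosh (lam * (M G a ℓ - g))
    have h2 : 0 ≤ 4 * lam ^ 2 * W G n r a ℓ := by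
      have := W_nonneg G n r a hℓ
      positivity
    nlinarith
  have h2 : Real.exp |lam * (M G a ℓ - g)| ≤ 2 * 16 ^ K := by
    rw [← Real.cosh_abs, Real.cosh_eq] at h1
    have := Real.exp_pos (-|lam * (M G a ℓ - g)|)
    linarith
  have h3 : |lam * (M G a ℓ - g)| ≤ Real.log (2 * 16 ^ K) := by
    rw [Real.le_log_iff_exp_le (by positivity)]
    exact h2
  have h4 : Real.log (2 * 16 ^ K) ≤ 3 * K + 1 := by
    have e : (2 : ℝ) * 16 ^ K = 2 ^ (4 * K + 1) := by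
      rw [pow_succ, pow_mul]; norm_num; ring
    rw [e, Real.log_pow]
    have h5 := Real.log_two_lt_d9
    have h6 : (0 : ℝ) ≤ K := Nat.cast_nonneg K
    push_cast
    nlinarith
  rw [abs_mul, abs_of_pos hlam] at h3
  rw [le_div_iff₀ hlam, mul_comm]
  exact h3.trans h4

variable {F : Pm} {K : ℕ} {a₀ ℓst a ℓ x : ℝ} {u : ℕ × (Fin (F.d + 1) → ℕ)} {tg : ℕ × (Fin (F.d + 1) → ℕ) → ℕ → ℝ}

theorem stage_startT (hF : F.Ok) (hK : F.Big K) (S : F.St K a₀ ℓst) : GoodT F tg K a₀ ℓst a₀ ℓst := by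
  have h := stage_start7 hF hK S
  refine ⟨h.1, ?_⟩
  have h2 := h.2
  rw [T_start F K a₀ ℓst] at h2 ⊢
  refine le_trans (le_of_eq ?_) h2
  refine Finset.sum_congr rfl fun p _ => ?_
  unfold PotT Pot
  rw [add_zero, sub_self, sub_zero]

theorem stage_sumsT (hF : F.Ok) (hK : F.Big K) (S : F.St K a₀ ℓst) (hℓ : 0 < ℓ) (h1 : a₀ ≤ a) (h2 : a + ℓ ≤ a₀ + ℓst)
    (hT : F.T K a₀ ℓst ℓ ≤ 2 ^ (2 * K)) (hgood : GoodT F tg K a₀ ℓst a ℓ) (hx : x ∈ Icc a (a + ℓ)) (hu : u ∈ F.Is K) :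
    |∑ j ∈ Finset.range (F.T K a₀ ℓst ℓ) with (F.n₀ K a₀ ℓst + j) % F.Q = u.1, ∏ i : Fin (F.d + 1), hr (u.2 i) (F.U K a₀ ℓst (j + i) x) -
      (tg u (F.n₀ K a₀ ℓst + F.T K a₀ ℓst ℓ) - tg u (F.n₀ K a₀ ℓst))| ≤
      131072 * F.X * (F.d + 4) * F.Q * (K : ℝ) ^ 4 * (4 * (F.d + 1) * (K : ℝ)) ^ sp u.2 := by
  have hKK := num_K hK
  have hK1 : 1 ≤ K := by omega
  have hKr : (1 : ℝ) ≤ K := by exact_mod_cast hK1
  have hX : (1 : ℝ) ≤ F.X := by exact_mod_cast X_pos hF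
  have hQ : (1 : ℝ) ≤ F.Q := by exact_mod_cast hF.hQ
  have hd : (0 : ℝ) ≤ F.d := Nat.cast_nonneg _
  have hw := win hF hK S hℓ h1 h2 hu
  have hNB := G_NB hu hgood.1
  have i1 := sum_sub_M hw hNB hx
  have hlam := lam_pos hF hK1 u
  obtain ⟨g, hg⟩ : ∃ g : ℝ, g = tg u (F.n₀ K a₀ ℓst + F.T K a₀ ℓst ℓ) - tg u (F.n₀ K a₀ ℓst) := ⟨_, rfl⟩
  have hPot : PotT (F.G K a₀ ℓst u) (F.T K a₀ ℓst ℓ) (F.R * F.E K) (F.lam K u) g a ℓ ≤ 16 ^ F.E K := by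
    rw [hg]
    exact (Finset.single_le_sum (f := fun u : ℕ × (Fin (F.d + 1) → ℕ) => PotT (F.G K a₀ ℓst u) (F.T K a₀ ℓst ℓ) (F.R * F.E K) (F.lam K u)
      (tg u (F.n₀ K a₀ ℓst + F.T K a₀ ℓst ℓ) - tg u (F.n₀ K a₀ ℓst)) a ℓ)
      (fun p _ => PotT_nonneg _ _ _ _ _ _ hℓ) hu).trans hgood.2
  have i2 := M_of_PotT hℓ hlam hPot
  obtain ⟨hv0, hv1⟩ := vq_lo (Finset.mem_product.1 hu).2
  obtain ⟨r1, -⟩ := num_R hF hK
  have r2 : F.R * F.E K ≤ K ^ 3 := le_trans (Nat.le_self_pow (by norm_num) _) r1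
  have r3 : ((F.R * F.E K : ℕ) : ℝ) ≤ (K : ℝ) ^ 3 := by exact_mod_cast r2
  -- the sum is the sum of the functionals
  have e1 : ∑ j ∈ Finset.range (F.T K a₀ ℓst ℓ) with (F.n₀ K a₀ ℓst + j) % F.Q = u.1,
      ∏ i : Fin (F.d + 1), hr (u.2 i) (F.U K a₀ ℓst (j + i) x) =
      ∑ j ∈ Finset.range (F.T K a₀ ℓst ℓ), F.G K a₀ ℓst u j x := by
    rw [Finset.sum_filter]
    refine Finset.sum_congr rfl fun j hj => ?_
    unfold Pm.G GQ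
    have h3 : j < 2 ^ (2 * K) := (Finset.mem_range.1 hj).trans_le hT
    simp only [h3, true_and]
  -- the factor `(4 (d + 1) K) ^ sp`
  obtain ⟨P, hP⟩ : ∃ P : ℝ, P = (4 * (F.d + 1) * (K : ℝ)) ^ sp u.2 := ⟨_, rfl⟩
  have hdK : (1 : ℝ) ≤ (F.d + 1) * (K : ℝ) := one_le_mul_of_one_le_of_one_le (by linarith) hKr
  have hP1 : 1 ≤ P := by
    rw [hP]
    exact one_le_pow₀ (by linarith)
  have e2 : 1 / F.lam K u ≤ 16384 * (F.X * (K : ℝ) ^ 3) * (F.Q * P) := by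
    have h3 : 1 / F.lam K u = 16384 * (F.X * (K : ℝ) ^ 3) * (F.Q * (2 * ((F.d : ℝ) + 1) * ((K : ℝ) + 1)) ^ sp u.2) := by
      unfold Pm.lam om
      rw [sp_lev, one_div_pow]
      have hQ0 : (F.Q : ℝ) ≠ 0 := by linarith
      have hX0 : (F.X : ℝ) ≠ 0 := by linarith
      have hK0 : (K : ℝ) ≠ 0 := by linarith
      have h4 : (2 * ((F.d : ℝ) + 1) * ((K : ℝ) + 1)) ^ sp u.2 ≠ 0 := by positivity
      field_simp
    rw [h3, hP]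
    refine mul_le_mul_of_nonneg_left (mul_le_mul_of_nonneg_left (pow_le_pow_left₀ (by positivity) ?_ _) (by linarith)) (by positivity)
    nlinarith
  have e3 : (3 * (F.E K : ℝ) + 1) / F.lam K u ≤ 65536 * (F.X * (F.d + 4) * F.Q * (K : ℝ) ^ 4 * P) := by
    rw [div_eq_mul_one_div]
    have h4 : (F.E K : ℝ) = (F.d + 4) * K := by
      unfold Pm.E
      push_cast
      ring
    have h5 : 3 * (F.E K : ℝ) + 1 ≤ 4 * ((F.d + 4) * K) := by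
      rw [h4]
      nlinarith
    have h6 : 0 ≤ 3 * (F.E K : ℝ) + 1 := by positivity
    calc (3 * (F.E K : ℝ) + 1) * (1 / F.lam K u) ≤ 4 * ((F.d + 4) * K) * (16384 * (F.X * (K : ℝ) ^ 3) * (F.Q * P)) :=
          mul_le_mul h5 e2 (by positivity) (by positivity)
      _ = 65536 * (F.X * (F.d + 4) * F.Q * (K : ℝ) ^ 4 * P) := by ring
  have e4 : 2 * ((F.R * F.E K : ℕ) : ℝ) + 2 * vq u.2 ≤ 65536 * (F.X * (F.d + 4) * F.Q * (K : ℝ) ^ 4 * P) := by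
    have h3 : (K : ℝ) ^ 3 ≤ (K : ℝ) ^ 4 := pow_le_pow_right₀ hKr (by norm_num)
    have h4 : (1 : ℝ) ≤ (K : ℝ) ^ 4 := one_le_pow₀ hKr
    have h5 : (1 : ℝ) ≤ F.X * (F.d + 4) * F.Q :=
      one_le_mul_of_one_le_of_one_le (one_le_mul_of_one_le_of_one_le hX (by linarith)) hQ
    have h6 : (K : ℝ) ^ 4 ≤ F.X * (F.d + 4) * F.Q * (K : ℝ) ^ 4 := le_mul_of_one_le_left (by positivity) h5
    have h7 : F.X * (F.d + 4) * F.Q * (K : ℝ) ^ 4 ≤ F.X * (F.d + 4) * F.Q * (K : ℝ) ^ 4 * P := le_mul_of_one_le_right (by positivity) hP1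
    linarith
  rw [e1, ← hP, ← hg]
  have h6 : ∑ j ∈ Finset.range (F.T K a₀ ℓst ℓ), F.G K a₀ ℓst u j x - g =
      (∑ j ∈ Finset.range (F.T K a₀ ℓst ℓ), F.G K a₀ ℓst u j x - M (F.G K a₀ ℓst u) a ℓ) + (M (F.G K a₀ ℓst u) a ℓ - g) := by ring
  rw [h6]
  refine (abs_add_le _ _).trans ?_
  have h7 : 131072 * (F.X : ℝ) * (F.d + 4) * F.Q * (K : ℝ) ^ 4 * P = 131072 * (F.X * (F.d + 4) * F.Q * (K : ℝ) ^ 4 * P) := by ring
  rw [h7]
  linarith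

end Pool.Agent.Helper41.PD
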