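import Pool.Agent.Helper41.LD.P

/-!
# Project PD (prescribed densities): the steering step with a drift
-/

set_option autoImplicit false

namespace Pool.Agent.Helper41.PD

open Real
open Pool.Agent.Helper41.LD (abs_sinh_le cosh_sub_one_le cosh_bound cosh_two)

/-- a small shift of the argument -/
theorem cosh_shift {x z : ℝ} (hz : |z| ≤ 1 / 4) : cosh (x + z) ≤ (1 + 2 * |z|) * cosh x := by
  have h1 := abs_sinh_le x
  have hc : 1 ≤ cosh x := Real.one_le_cosh x
  have h := cosh_bound (x := x) (y := z) (by linarith)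
  have h2 : z * sinh x ≤ |z| * cosh x := by
    calc z * sinh x ≤ |z * sinh x| := le_abs_self _
      _ = |z| * |sinh x| := abs_mul _ _
      _ ≤ |z| * cosh x := mul_le_mul_of_nonneg_left h1 (abs_nonneg _)
  have h3 : z ^ 2 ≤ |z| := by
    rw [← sq_abs]
    nlinarith [abs_nonneg z]
  have h4 : z ^ 2 * cosh x ≤ |z| * cosh x := mul_le_mul_of_nonneg_right h3 (by linarith)
  linarith

open Classical in
theorem steer_stepT {ι : Type} (s : Finset ι) {B : ℕ} (hB : 1 ≤ B) (m w μ : ι → ℝ) (δ w' : ι → ℕ → ℝ)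
    (ε : ι → ℝ) {lam D E₁ E₂ E₃ γ τ μ₀ K : ℝ} (hlam : 0 < lam) (hD : 0 < D) (hlD : lam * D ≤ 1 / 4) (hE₁ : 0 < E₁) (hE₂ : 0 ≤ E₂) (hγ : 0 < γ) (hμ₀ : 0 < μ₀)
    (h0 : ∀ p ∈ s, ∑ b ∈ Finset.range B, δ p b = 0) (h1 : ∀ p ∈ s, ∀ b < B, |δ p b| ≤ D)
    (h2 : ∀ p ∈ s, ∑ b ∈ Finset.range B, δ p b ^ 2 ≤ B * (2 * w p + E₁ * μ p))
    (hw0 : ∀ p ∈ s, 0 ≤ w p) (hw3 : ∀ p ∈ s, w p ≤ E₃) (hw'0 : ∀ p ∈ s, ∀ b < B, 0 ≤ w' p b) (hw'3 : ∀ p ∈ s, ∀ b < B, w' p b ≤ E₃)
    (h3 : ∀ p ∈ s, ∑ b ∈ Finset.range B, w' p b ≤ B * (E₂ * μ p))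
    (h4 : ∀ g : ι → ℝ, γ * (∑ p ∈ s, |g p| * μ p) * B ≤ ∑ b ∈ Finset.range B, |∑ p ∈ s, g p * δ p b|)
    (hμ : ∀ p ∈ s, μ₀ ≤ μ p) (hμK : ∑ p ∈ s, μ p ≤ K) (hτ1 : 16 * K ≤ μ₀ * τ) (hK : 0 < K) (hE₃ : 4 * lam ^ 2 * E₃ ≤ 1)
    (hsmall : 28 * lam * (E₁ + 8 * E₂) ≤ γ) (hε : ∀ p ∈ s, |ε p| ≤ lam * E₁ * μ p / 16) (hε' : ∀ p ∈ s, lam * |ε p| ≤ 1 / 8)
    (hτ : ∑ p ∈ s, Real.cosh (lam * m p) * (1 + 4 * lam ^ 2 * w p) ≤ τ) {ρ : ℝ}
    (hρ1 : ρ ≤ 1) (hρ2 : ρ ≤ lam ^ 2 * E₁ * μ₀ / 8) (hρ3 : ρ ≤ γ * μ₀ / (8 * D)) :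
    ρ * B ≤ (((Finset.range B).filter fun b : ℕ =>
      ∑ p ∈ s, Real.cosh (lam * (m p + δ p b + ε p)) * (1 + 4 * lam ^ 2 * w' p b) ≤ τ).card : ℝ) := by
  set V : ℕ → ℝ := fun b => ∑ p ∈ s, Real.cosh (lam * (m p + δ p b + ε p)) * (1 + 4 * lam ^ 2 * w' p b) with hV
  set G := (Finset.range B).filter fun b : ℕ => V b ≤ τ with hG
  set ch : ι → ℝ := fun p => cosh (lam * m p) with hch
  have hch1 : ∀ p, 1 ≤ ch p := fun p => Real.one_le_cosh _
  have hBr : (1 : ℝ) ≤ B := by exact_mod_cast hB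
  have hlD0 : ∀ p ∈ s, ∀ b < B, |lam * δ p b| ≤ 1 / 4 := by
    intro p hp b hb
    rw [abs_mul, abs_of_pos hlam]
    exact (mul_le_mul_of_nonneg_left (h1 p hp b hb) hlam.le).trans hlD
  have hlD' : ∀ p ∈ s, ∀ b < B, |lam * δ p b| ≤ 1 / 2 := fun p hp b hb => (hlD0 p hp b hb).trans (by norm_num)
  have hε0 : ∀ p ∈ s, |lam * ε p| ≤ 1 / 8 := by
    intro p hp
    rw [abs_mul, abs_of_pos hlam]
    exact hε' p hp
  have hlDε : ∀ p ∈ s, ∀ b < B, |lam * (δ p b + ε p)| ≤ 1 / 2 := by
    intro p hp b hb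
    rw [mul_add]
    refine (abs_add_le _ _).trans ?_
    linarith [hlD0 p hp b hb, hε0 p hp]
  set C0 : ℝ := ∑ p ∈ s, ch p with hC0
  set Wt : ℝ := ∑ p ∈ s, ch p * w p with hWt
  set S : ℝ := ∑ p ∈ s, ch p * μ p with hS
  set U : ℝ := ∑ p ∈ s, ch p * (1 + 4 * lam ^ 2 * w p) with hU
  have hUe : U = C0 + 4 * lam ^ 2 * Wt := by
    rw [hU, hC0, hWt, Finset.mul_sum, ← Finset.sum_add_distrib]
    exact Finset.sum_congr rfl fun p _ => by ring
  have hWt0 : 0 ≤ Wt := Finset.sum_nonneg fun p hp => mul_nonneg (by linarith [hch1 p]) (hw0 p hp)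
  have hC00 : 0 ≤ C0 := Finset.sum_nonneg fun p _ => by linarith [hch1 p]
  have hμpos : ∀ p ∈ s, 0 < μ p := fun p hp => hμ₀.trans_le (hμ p hp)
  have hS0 : 0 ≤ S := Finset.sum_nonneg fun p hp => mul_nonneg (by linarith [hch1 p]) (hμpos p hp).le
  have hU0 : 0 ≤ U := by rw [hUe]; positivity
  have hU2 : U ≤ 2 * C0 := by
    rw [hU, hC0, Finset.mul_sum]
    refine Finset.sum_le_sum fun p hp => ?_
    have h5 : 4 * lam ^ 2 * w p ≤ 1 := by
      have : 4 * lam ^ 2 * w p ≤ 4 * lam ^ 2 * E₃ := mul_le_mul_of_nonneg_left (hw3 p hp) (by positivity)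
      linarith
    have := hch1 p
    nlinarith
  have hV0 : ∀ b < B, 0 ≤ V b := by
    intro b hb
    refine Finset.sum_nonneg fun p hp => mul_nonneg (by linarith [Real.one_le_cosh (lam * (m p + δ p b + ε p))]) ?_
    have := hw'0 p hp b hb
    positivity
  -- all children for a small potential
  rcases le_or_gt U (τ / 4) with hcase | hcase
  · have hall : G = Finset.range B := by
      rw [hG, Finset.filter_true_of_mem]
      intro b hb
      have hb' := Finset.mem_range.1 hb
      have h5 : V b ≤ ∑ p ∈ s, 4 * ch p := by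
        refine Finset.sum_le_sum fun p hp => ?_
        have h6 : cosh (lam * (m p + δ p b + ε p)) ≤ 2 * ch p := by
          rw [add_assoc, mul_add]
          exact cosh_two (hlDε p hp b hb')
        have h7 : 1 + 4 * lam ^ 2 * w' p b ≤ 2 := by
          have : 4 * lam ^ 2 * w' p b ≤ 4 * lam ^ 2 * E₃ := mul_le_mul_of_nonneg_left (hw'3 p hp b hb') (by positivity)
          linarith
        have h8 : 0 ≤ 1 + 4 * lam ^ 2 * w' p b := by
          have := hw'0 p hp b hb'
          positivity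
        have := hch1 p
        nlinarith [Real.one_le_cosh (lam * (m p + δ p b + ε p))]
      rw [← Finset.mul_sum] at h5
      have h9 : C0 ≤ U := by
        rw [hUe]
        have : 0 ≤ 4 * lam ^ 2 * Wt := by positivity
        linarith
      linarith
    rw [hall, Finset.card_range]
    nlinarith
  -- the main case
  have hτC : τ ≤ 8 * C0 := by linarith
  have hSC : μ₀ * C0 ≤ S := by
    rw [hC0, hS, Finset.mul_sum]
    refine Finset.sum_le_sum fun p hp => ?_
    rw [mul_comm]
    exact mul_le_mul_of_nonneg_left (hμ p hp) (by linarith [hch1 p])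
  have hSK : 2 * K ≤ S := by
    have h5 : μ₀ * τ ≤ μ₀ * (8 * C0) := mul_le_mul_of_nonneg_left hτC hμ₀.le
    nlinarith
  have hC0pos : 0 < C0 := by
    by_contra hcon
    have : C0 = 0 := le_antisymm (not_lt.1 hcon) hC00
    have h5 : 16 * K ≤ 0 := by
      have h6 : μ₀ * τ ≤ μ₀ * (8 * C0) := mul_le_mul_of_nonneg_left hτC hμ₀.le
      rw [this] at h6
      linarith
    linarith
  set X : ℕ → ℝ := fun b => ∑ p ∈ s, sinh (lam * m p) * δ p b with hX
  set Y : ℕ → ℝ := fun b => ∑ p ∈ s, ch p * δ p b ^ 2 with hY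
  set Wp : ℕ → ℝ := fun b => ∑ p ∈ s, ch p * w' p b with hWp
  have hVle : ∀ b < B, V b ≤ C0 + lam * X b + lam ^ 2 * Y b + 8 * lam ^ 2 * Wp b + lam ^ 2 * E₁ / 4 * S := by
    intro b hb
    have e : C0 + lam * X b + lam ^ 2 * Y b + 8 * lam ^ 2 * Wp b + lam ^ 2 * E₁ / 4 * S =
        ∑ p ∈ s, (ch p + lam * (sinh (lam * m p) * δ p b) + lam ^ 2 * (ch p * δ p b ^ 2) + 8 * lam ^ 2 * (ch p * w' p b) +
          lam ^ 2 * E₁ / 4 * (ch p * μ p)) := by
      simp only [hC0, hX, hY, hWp, hS, Finset.mul_sum, Finset.sum_add_distrib]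
    rw [e]
    refine Finset.sum_le_sum fun p hp => ?_
    have h5 := cosh_bound (x := lam * m p) (hlD' p hp b hb)
    have h6 := cosh_two (x := lam * m p) (hlD' p hp b hb)
    have h60 := cosh_two (x := lam * m p) (hlDε p hp b hb)
    rw [← mul_add] at h5 h6 h60
    rw [← add_assoc] at h60
    have h61 := cosh_shift (x := lam * (m p + δ p b)) (z := lam * ε p) ((hε0 p hp).trans (by norm_num))
    rw [← mul_add] at h61
    have h62 : |lam * ε p| ≤ lam ^ 2 * E₁ * μ p / 16 := by
      rw [abs_mul, abs_of_pos hlam]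
      calc lam * |ε p| ≤ lam * (lam * E₁ * μ p / 16) := mul_le_mul_of_nonneg_left (hε p hp) hlam.le
        _ = _ := by ring
    have hch1p := hch1 p
    have h63 : cosh (lam * (m p + δ p b + ε p)) ≤ cosh (lam * (m p + δ p b)) + lam ^ 2 * E₁ / 4 * (ch p * μ p) := by
      have i1 : 2 * |lam * ε p| * cosh (lam * (m p + δ p b)) ≤ 2 * (lam ^ 2 * E₁ * μ p / 16) * (2 * ch p) :=
        mul_le_mul (by linarith) h6 (by linarith [Real.one_le_cosh (lam * (m p + δ p b))]) (by
          have := hμpos p hp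
          positivity)
      linarith
    have h7 : 0 ≤ 4 * lam ^ 2 * w' p b := by
      have := hw'0 p hp b hb
      positivity
    have h8 : cosh (lam * (m p + δ p b + ε p)) * (4 * lam ^ 2 * w' p b) ≤ 2 * ch p * (4 * lam ^ 2 * w' p b) :=
      mul_le_mul_of_nonneg_right h60 h7
    have h9 : (ch p) = cosh (lam * m p) := rfl
    rw [mul_add, mul_one]
    rw [← h9] at h5
    nlinarith
  have hXsum : ∑ b ∈ Finset.range B, X b = 0 := by
    simp only [hX]
    rw [Finset.sum_comm]
    refine Finset.sum_eq_zero fun p hp => ?_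
    rw [← Finset.mul_sum, h0 p hp, mul_zero]
  have hYsum : ∑ b ∈ Finset.range B, Y b ≤ B * (2 * Wt + E₁ * S) := by
    simp only [hY]
    rw [Finset.sum_comm]
    have e : (B : ℝ) * (2 * Wt + E₁ * S) = ∑ p ∈ s, ch p * (B * (2 * w p + E₁ * μ p)) := by
      rw [hWt, hS, mul_add, Finset.mul_sum, Finset.mul_sum, Finset.mul_sum, Finset.mul_sum, ← Finset.sum_add_distrib]
      exact Finset.sum_congr rfl fun p _ => by ring
    rw [e]
    refine Finset.sum_le_sum fun p hp => ?_
    rw [← Finset.mul_sum]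
    exact mul_le_mul_of_nonneg_left (h2 p hp) (by linarith [hch1 p])
  have hWsum : ∑ b ∈ Finset.range B, Wp b ≤ B * (E₂ * S) := by
    simp only [hWp]
    rw [Finset.sum_comm]
    have e : (B : ℝ) * (E₂ * S) = ∑ p ∈ s, ch p * (B * (E₂ * μ p)) := by
      rw [hS, Finset.mul_sum, Finset.mul_sum]
      exact Finset.sum_congr rfl fun p _ => by ring
    rw [e]
    refine Finset.sum_le_sum fun p hp => ?_
    rw [← Finset.mul_sum]
    exact mul_le_mul_of_nonneg_left (h3 p hp) (by linarith [hch1 p])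
  have hUτ : U ≤ τ := hτ
  have hGmem : ∀ b, b ∈ G ↔ b < B ∧ V b ≤ τ := by
    intro b
    rw [hG, Finset.mem_filter, Finset.mem_range]
  have hGsub : G ⊆ Finset.range B := Finset.filter_subset _ _
  set E₄ : ℝ := E₁ + 8 * E₂ with hE₄
  have hE₄0 : 0 < E₄ := by positivity
  rcases le_or_gt (E₄ * S) Wt with hW | hW
  · -- a large pending variance
    have h5 : ∑ b ∈ Finset.range B, (U - V b) ≤ G.card * U := by
      calc ∑ b ∈ Finset.range B, (U - V b) ≤ ∑ b ∈ Finset.range B, (if b ∈ G then U else 0) := by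
            refine Finset.sum_le_sum fun b hb => ?_
            have hb' := Finset.mem_range.1 hb
            split_ifs with hbG
            · linarith [hV0 b hb']
            · have : τ < V b := by
                by_contra hcon
                exact hbG ((hGmem b).2 ⟨hb', not_lt.1 hcon⟩)
              linarith
        _ = G.card * U := by
            rw [← Finset.sum_filter, Finset.sum_const, nsmul_eq_mul]
            congr 2
            congr 1
            ext b
            rw [Finset.mem_filter]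
            exact ⟨fun h => h.2, fun h => ⟨hGsub h, h⟩⟩
    have h6 : B * (lam ^ 2 * E₁ * S / 2) ≤ ∑ b ∈ Finset.range B, (U - V b) := by
      have h7 : ∑ b ∈ Finset.range B, V b ≤ B * C0 + lam * 0 + lam ^ 2 * (B * (2 * Wt + E₁ * S)) + 8 * lam ^ 2 * (B * (E₂ * S)) +
          B * (lam ^ 2 * E₁ / 4 * S) := by
        calc ∑ b ∈ Finset.range B, V b ≤ ∑ b ∈ Finset.range B, (C0 + lam * X b + lam ^ 2 * Y b + 8 * lam ^ 2 * Wp b + lam ^ 2 * E₁ / 4 * S) :=
              Finset.sum_le_sum fun b hb => hVle b (Finset.mem_range.1 hb)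
          _ = B * C0 + lam * (∑ b ∈ Finset.range B, X b) + lam ^ 2 * (∑ b ∈ Finset.range B, Y b) +
              8 * lam ^ 2 * (∑ b ∈ Finset.range B, Wp b) + B * (lam ^ 2 * E₁ / 4 * S) := by
              rw [Finset.sum_add_distrib, Finset.sum_add_distrib, Finset.sum_add_distrib, Finset.sum_add_distrib, ← Finset.mul_sum, ← Finset.mul_sum,
                ← Finset.mul_sum, Finset.sum_const, Finset.sum_const, Finset.card_range, nsmul_eq_mul, nsmul_eq_mul]
          _ ≤ _ := by
              rw [hXsum]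
              have i1 := mul_le_mul_of_nonneg_left hYsum (show 0 ≤ lam ^ 2 by positivity)
              have i2 := mul_le_mul_of_nonneg_left hWsum (show 0 ≤ 8 * lam ^ 2 by positivity)
              linarith
      have h8 : ∑ b ∈ Finset.range B, (U - V b) = B * U - ∑ b ∈ Finset.range B, V b := by
        rw [Finset.sum_sub_distrib, Finset.sum_const, Finset.card_range, nsmul_eq_mul]
      rw [h8]
      have h9 : (B : ℝ) * U = B * C0 + 4 * lam ^ 2 * (B * Wt) := by rw [hUe]; ring
      have h10 : lam ^ 2 * (B * (E₄ * S)) ≤ lam ^ 2 * (B * Wt) :=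
        mul_le_mul_of_nonneg_left (mul_le_mul_of_nonneg_left hW (by linarith)) (by positivity)
      have h11 : 0 ≤ lam ^ 2 * (B * (E₂ * S)) := by positivity
      have h11' : 0 ≤ lam ^ 2 * (B * (E₁ * S)) := by positivity
      rw [hE₄] at h10
      nlinarith
    have h12 : B * (lam ^ 2 * E₁ * (μ₀ * C0) / 2) ≤ G.card * (2 * C0) := by
      calc B * (lam ^ 2 * E₁ * (μ₀ * C0) / 2) ≤ B * (lam ^ 2 * E₁ * S / 2) := by
            refine mul_le_mul_of_nonneg_left (div_le_div_of_nonneg_right (mul_le_mul_of_nonneg_left hSC (by positivity)) (by norm_num)) (by linarith)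
        _ ≤ G.card * U := h6.trans h5
        _ ≤ G.card * (2 * C0) := mul_le_mul_of_nonneg_left hU2 (by positivity)
    have h13 : B * (lam ^ 2 * E₁ * μ₀ / 4) ≤ G.card := by
      have : (B * (lam ^ 2 * E₁ * μ₀ / 4)) * (2 * C0) ≤ G.card * (2 * C0) := by linarith
      exact le_of_mul_le_mul_right this (by positivity)
    have h14 : ρ * B ≤ (lam ^ 2 * E₁ * μ₀ / 8) * B := mul_le_mul_of_nonneg_right hρ2 (by linarith)
    have h15 : 0 ≤ B * (lam ^ 2 * E₁ * μ₀) := by positivity
    linarith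
  · -- the gain
    set S' : ℝ := ∑ p ∈ s, |sinh (lam * m p)| * μ p with hS'
    have hS'S : S - K ≤ S' := by
      have h5 : S ≤ S' + ∑ p ∈ s, μ p := by
        rw [hS, hS', ← Finset.sum_add_distrib]
        refine Finset.sum_le_sum fun p hp => ?_
        have h6 := cosh_sub_one_le (lam * m p)
        have h7 : ch p ≤ |sinh (lam * m p)| + 1 := by
          show cosh (lam * m p) ≤ _
          linarith
        have := mul_le_mul_of_nonneg_right h7 (hμpos p hp).le
        linarith
      linarith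
    have hXabs : γ * S' * B ≤ ∑ b ∈ Finset.range B, |X b| := h4 fun p => sinh (lam * m p)
    have hXD : ∀ b < B, |X b| ≤ D * C0 := by
      intro b hb
      calc |X b| ≤ ∑ p ∈ s, |sinh (lam * m p) * δ p b| := Finset.abs_sum_le_sum_abs _ _
        _ ≤ ∑ p ∈ s, ch p * D := by
            refine Finset.sum_le_sum fun p hp => ?_
            rw [abs_mul]
            exact mul_le_mul (abs_sinh_le _) (h1 p hp b hb) (abs_nonneg _) (by linarith [hch1 p])
        _ = D * C0 := by rw [← Finset.sum_mul, mul_comm]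
    set Z : ℕ → ℝ := fun b => lam ^ 2 * Y b + 8 * lam ^ 2 * Wp b + lam ^ 2 * E₁ / 4 * S with hZ
    have hY0 : ∀ b, 0 ≤ Y b := fun b => Finset.sum_nonneg fun p _ => mul_nonneg (by linarith [hch1 p]) (sq_nonneg _)
    have hWp0 : ∀ b < B, 0 ≤ Wp b := fun b hb => Finset.sum_nonneg fun p hp => mul_nonneg (by linarith [hch1 p]) (hw'0 p hp b hb)
    have hZ0 : ∀ b < B, 0 ≤ Z b := fun b hb => by
      have i1 := hY0 b
      have i2 := hWp0 b hb
      simp only [hZ]
      positivity
    have hkey : ∀ b < B, lam * (|X b| - X b) / 2 ≤ (if b ∈ G then lam * (D * C0) else 0) + Z b := by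
      intro b hb
      have hz := hZ0 b hb
      split_ifs with hbG
      · have i1 := hXD b hb
        have i2 : -X b ≤ |X b| := neg_le_abs _
        have i3 : lam * (|X b| - X b) / 2 ≤ lam * (D * C0) := by
          rw [mul_div_assoc]
          exact mul_le_mul_of_nonneg_left (by linarith) hlam.le
        linarith
      · have i1 : τ < V b := by
          by_contra hcon
          exact hbG ((hGmem b).2 ⟨hb, not_lt.1 hcon⟩)
        have i2 := hVle b hb
        have i3 : C0 ≤ U := by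
          rw [hUe]
          have : 0 ≤ 4 * lam ^ 2 * Wt := by positivity
          linarith
        have i4 : 0 ≤ lam * X b + Z b := by
          simp only [hZ]
          linarith
        rcases le_total 0 (X b) with hx | hx
        · rw [abs_of_nonneg hx, sub_self, mul_zero, zero_div]
          linarith
        · rw [abs_of_nonpos hx]
          linarith
    have hsum : ∑ b ∈ Finset.range B, lam * (|X b| - X b) / 2 ≤ G.card * (lam * (D * C0)) + ∑ b ∈ Finset.range B, Z b := by
      calc ∑ b ∈ Finset.range B, lam * (|X b| - X b) / 2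
          ≤ ∑ b ∈ Finset.range B, ((if b ∈ G then lam * (D * C0) else 0) + Z b) :=
            Finset.sum_le_sum fun b hb => hkey b (Finset.mem_range.1 hb)
        _ = _ := by
            rw [Finset.sum_add_distrib]
            congr 1
            rw [← Finset.sum_filter, Finset.sum_const, nsmul_eq_mul]
            congr 2
            congr 1
            ext b
            rw [Finset.mem_filter]
            exact ⟨fun h => h.2, fun h => ⟨hGsub h, h⟩⟩
    have hlhs : ∑ b ∈ Finset.range B, lam * (|X b| - X b) / 2 = lam / 2 * ∑ b ∈ Finset.range B, |X b| := by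
      have e : ∀ b, lam * (|X b| - X b) / 2 = lam / 2 * |X b| - lam / 2 * X b := fun b => by ring
      simp only [e]
      rw [Finset.sum_sub_distrib, ← Finset.mul_sum, ← Finset.mul_sum, hXsum, mul_zero, sub_zero]
    have hZsum : ∑ b ∈ Finset.range B, Z b ≤ B * (13 / 4 * lam ^ 2 * E₄ * S) := by
      simp only [hZ]
      rw [Finset.sum_add_distrib, Finset.sum_add_distrib, ← Finset.mul_sum, ← Finset.mul_sum, Finset.sum_const, Finset.card_range, nsmul_eq_mul]
      have i4 : 0 ≤ (B : ℝ) * (lam ^ 2 * (E₂ * S)) := by positivity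
      have i1 := mul_le_mul_of_nonneg_left hYsum (show 0 ≤ lam ^ 2 by positivity)
      have i2 := mul_le_mul_of_nonneg_left hWsum (show 0 ≤ 8 * lam ^ 2 by positivity)
      have i3 : lam ^ 2 * (B * Wt) ≤ lam ^ 2 * (B * (E₄ * S)) :=
        mul_le_mul_of_nonneg_left (mul_le_mul_of_nonneg_left hW.le (by linarith)) (by positivity)
      rw [hE₄] at i3 ⊢
      nlinarith
    have h5 : lam / 2 * (γ * S' * B) ≤ G.card * (lam * (D * C0)) + B * (13 / 4 * lam ^ 2 * E₄ * S) := by
      have i1 := mul_le_mul_of_nonneg_left hXabs (show 0 ≤ lam / 2 by positivity)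
      rw [hlhs] at hsum
      linarith
    have h6 : S / 2 ≤ S' := by linarith
    have h7 : lam / 2 * (γ * (S / 2) * B) ≤ lam / 2 * (γ * S' * B) := by gcongr
    have h8 : B * (13 / 4 * lam ^ 2 * E₄ * S) ≤ lam * γ * S * B / 8 := by
      have i1 : 28 * lam * E₄ * (lam * S * B) ≤ γ * (lam * S * B) := mul_le_mul_of_nonneg_right hsmall (by positivity)
      have i2 : 0 ≤ lam * E₄ * (lam * S * B) := by positivity
      nlinarith
    have h9 : lam * γ * S * B / 8 ≤ G.card * (lam * (D * C0)) := by nlinarith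
    have h10 : γ * (μ₀ * C0) * B / 8 ≤ G.card * (D * C0) := by
      have i1 : γ * S * B / 8 ≤ G.card * (D * C0) := by
        have : lam * (γ * S * B / 8) ≤ lam * (G.card * (D * C0)) := by linarith
        exact le_of_mul_le_mul_left this hlam
      have i2 : γ * (μ₀ * C0) * B ≤ γ * S * B := by gcongr
      linarith
    have h11 : γ * μ₀ / (8 * D) * B ≤ G.card := by
      rw [div_mul_eq_mul_div, div_le_iff₀ (by positivity)]
      have i1 : (γ * μ₀ * B) * C0 ≤ (G.card * (8 * D)) * C0 := by linarith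
      exact le_of_mul_le_mul_right i1 hC0pos
    exact (mul_le_mul_of_nonneg_right hρ3 (by linarith)).trans h11

end Pool.Agent.Helper41.PD
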